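import Pool.Agent.Helper17.CT.Piece

set_option autoImplicit false

/-!
FS-1: completeness of the enumeration of colourings.
-/

namespace Pool.Agent.Helper17.CT

theorem e1_allL {α : Type} (g : α → Bool) (l : List α) (h : allL g l = true) :
    ∀ a ∈ l, g a = true := by
  induction l with
  | nil => intro a ha; cases ha
  | cons b l ih =>
    have h0 : allL g (b :: l) = (g b && allL g l) := rfl
    rw [h0, Bool.and_eq_true] at h
    intro a ha
    rcases List.mem_cons.1 ha with rfl | ha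
    · exact h.1
    · exact ih h.2 a ha

theorem e1_d2 (a i : ℕ) : d2 a i = a / 4 ^ i % 4 := by
  have h : d2 a i = (a >>> (2 * i)) % 4 := rfl
  rw [h, Nat.shiftRight_eq_div_pow, pow_mul, show (2 : ℕ) ^ 2 = 4 by norm_num]

theorem e1_low {G x v : ℕ} (π : ℕ) (hx : x < v) : d2 (G + π * 4 ^ v) x = d2 G x := by
  rw [e1_d2, e1_d2]
  obtain ⟨j, rfl⟩ : ∃ j, v = x + 1 + j := ⟨v - (x + 1), by omega⟩
  have h : G + π * 4 ^ (x + 1 + j) = G + 4 ^ x * (4 * (4 ^ j * π)) := by ring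
  rw [h, Nat.add_mul_div_left _ _ (by positivity), Nat.add_mul_mod_self_left]

theorem e1_high {G v : ℕ} (π j : ℕ) (hG : G < 4 ^ v) : d2 (G + π * 4 ^ v) (v + j) = d2 π j := by
  rw [e1_d2, e1_d2, pow_add, ← Nat.div_div_eq_div_mul, Nat.add_mul_div_right _ _ (by positivity),
    Nat.div_eq_of_lt hG, zero_add]

theorem e1_okD {F : Code} {G v x g : ℕ} (h : d6 F.E x < 3 * v → d2 G (d6 F.E x) = g) :
    okD F G v x g = true := by
  have h0 : okD F G v x g = cond (Nat.blt (d6 F.E x) (3 * v)) (Nat.beq (d2 G (d6 F.E x)) g) true :=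
    rfl
  rw [h0]
  cases h1 : Nat.blt (d6 F.E x) (3 * v) with
  | false => rfl
  | true =>
    rw [cond_true, Nat.beq_eq]
    apply h
    rwa [Nat.blt_eq] at h1

theorem e1_step (F : Code) (test : ℕ → Bool) (γ : ℕ → ℕ)
    (hp : ∀ v < F.n, (γ (3 * v) = 0 ∧ γ (3 * v + 1) = 1 ∧ γ (3 * v + 2) = 2) ∨
      (γ (3 * v) = 0 ∧ γ (3 * v + 1) = 2 ∧ γ (3 * v + 2) = 1) ∨
      (γ (3 * v) = 1 ∧ γ (3 * v + 1) = 0 ∧ γ (3 * v + 2) = 2) ∨
      (γ (3 * v) = 1 ∧ γ (3 * v + 1) = 2 ∧ γ (3 * v + 2) = 0) ∨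
      (γ (3 * v) = 2 ∧ γ (3 * v + 1) = 0 ∧ γ (3 * v + 2) = 1) ∨
      (γ (3 * v) = 2 ∧ γ (3 * v + 1) = 1 ∧ γ (3 * v + 2) = 0))
    (he : ∀ x < 3 * F.n, γ (d6 F.E x) = γ x) (f : ℕ) :
    ∀ v G : ℕ, v + f = F.n → G < 4 ^ (3 * v) → (∀ x < 3 * v, d2 G x = γ x) →
      enum F test f v G = true → ∃ G, test G = true ∧ ∀ x < 3 * F.n, d2 G x = γ x := by
  induction f with
  | zero =>
    intro v G hv _ hd h
    have hv' : v = F.n := by omega
    subst hv'
    exact ⟨G, h, hd⟩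
  | succ f ih =>
    intro v G hv hG hd h
    have h0 : enum F test (f + 1) v G = allL (fun π => cond ((okD F G v (3 * v) (d2 π 0)) &&
        ((okD F G v (3 * v + 1) (d2 π 1)) && (okD F G v (3 * v + 2) (d2 π 2))))
          (enum F test f (v + 1) (G + π <<< (6 * v))) true) perms6 := rfl
    rw [h0] at h
    have hall := e1_allL _ _ h
    have hπ : ∃ π ∈ perms6, π < 64 ∧ d2 π 0 = γ (3 * v) ∧ d2 π 1 = γ (3 * v + 1) ∧
        d2 π 2 = γ (3 * v + 2) := by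
      rcases hp v (by omega) with ⟨h1, h2, h3⟩ | ⟨h1, h2, h3⟩ | ⟨h1, h2, h3⟩ | ⟨h1, h2, h3⟩ |
        ⟨h1, h2, h3⟩ | ⟨h1, h2, h3⟩ <;> rw [h1, h2, h3]
      · exact ⟨36, by decide, by decide, by decide, by decide, by decide⟩
      · exact ⟨24, by decide, by decide, by decide, by decide, by decide⟩
      · exact ⟨33, by decide, by decide, by decide, by decide, by decide⟩
      · exact ⟨9, by decide, by decide, by decide, by decide, by decide⟩
      · exact ⟨18, by decide, by decide, by decide, by decide, by decide⟩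
      · exact ⟨6, by decide, by decide, by decide, by decide, by decide⟩
    obtain ⟨π, hmem, hlt, hπ0, hπ1, hπ2⟩ := hπ
    have h1 := hall π hmem
    have hok : ∀ x, x < 3 * F.n → ∀ g, g = γ x → okD F G v x g = true := by
      intro x hx g hg
      apply e1_okD
      intro h2
      rw [hd _ h2, he x hx, hg]
    simp only [hok (3 * v) (by omega) _ hπ0, hok (3 * v + 1) (by omega) _ hπ1,
      hok (3 * v + 2) (by omega) _ hπ2, Bool.and_self, cond_true] at h1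
    have hsh : π <<< (6 * v) = π * 4 ^ (3 * v) := by
      rw [Nat.shiftLeft_eq, show 6 * v = 2 * (3 * v) by ring, pow_mul,
        show (2 : ℕ) ^ 2 = 4 by norm_num]
    rw [hsh] at h1
    refine ih (v + 1) _ (by omega) ?_ ?_ h1
    · have h4 : 4 ^ (3 * (v + 1)) = 64 * 4 ^ (3 * v) := by
        rw [mul_add, pow_add]; ring
      rw [h4]
      have h5 : π * 4 ^ (3 * v) ≤ 63 * 4 ^ (3 * v) := Nat.mul_le_mul_right _ (by omega)
      omega
    · intro x hx
      by_cases hx3 : x < 3 * v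
      · rw [e1_low π hx3, hd x hx3]
      · obtain ⟨j, rfl⟩ : ∃ j, x = 3 * v + j := ⟨x - 3 * v, by omega⟩
        rw [e1_high π j hG]
        have hj : j = 0 ∨ j = 1 ∨ j = 2 := by omega
        rcases hj with rfl | rfl | rfl
        · exact hπ0
        · exact hπ1
        · exact hπ2

/-- FS-1 -/
theorem enum_sound (F : Code) (hF : CodeOK F) (test : ℕ → Bool)
    (h : enum F test (Nat.pred F.n) 1 36 = true) (γ : ℕ → ℕ)
    (hp : ∀ v < F.n, (γ (3 * v) = 0 ∧ γ (3 * v + 1) = 1 ∧ γ (3 * v + 2) = 2) ∨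
      (γ (3 * v) = 0 ∧ γ (3 * v + 1) = 2 ∧ γ (3 * v + 2) = 1) ∨
      (γ (3 * v) = 1 ∧ γ (3 * v + 1) = 0 ∧ γ (3 * v + 2) = 2) ∨
      (γ (3 * v) = 1 ∧ γ (3 * v + 1) = 2 ∧ γ (3 * v + 2) = 0) ∨
      (γ (3 * v) = 2 ∧ γ (3 * v + 1) = 0 ∧ γ (3 * v + 2) = 1) ∨
      (γ (3 * v) = 2 ∧ γ (3 * v + 1) = 1 ∧ γ (3 * v + 2) = 0))
    (he : ∀ x < 3 * F.n, γ (d6 F.E x) = γ x)
    (h0 : γ 0 = 0 ∧ γ 1 = 1 ∧ γ 2 = 2) :
    ∃ G, test G = true ∧ ∀ x < 3 * F.n, d2 G x = γ x := by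
  have hn := hF.n2
  refine e1_step F test γ hp he (Nat.pred F.n) 1 36 ?_ (by norm_num) ?_ h
  · rw [Nat.pred_eq_sub_one]; omega
  · intro x hx
    have hx' : x = 0 ∨ x = 1 ∨ x = 2 := by omega
    rcases hx' with rfl | rfl | rfl
    · rw [h0.1]; decide
    · rw [h0.2.1]; decide
    · rw [h0.2.2]; decide

end Pool.Agent.Helper17.CT
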