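import Mathlib

namespace Pool.Agent.Helper76.CT

/-- a path on three vertices is a copy of `K_3` minus an edge -/
theorem path_copy {V : Type*} (G : SimpleGraph V) {x y v : V} (hxy : x ≠ y) (hx : G.Adj x v)
    (hy : G.Adj y v) : ∃ f : Fin 3 → V, Function.Injective f ∧ ∃ a b : Fin 3, a ≠ b ∧
      ∀ i j : Fin 3, i ≠ j → ¬(i = a ∧ j = b) → ¬(i = b ∧ j = a) → G.Adj (f i) (f j) := by
  refine ⟨![x, v, y], ?_, 0, 2, by decide, ?_⟩
  · intro i j hij
    fin_cases i <;> fin_cases j
    · rfl
    · exact absurd hij hx.ne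
    · exact absurd hij hxy
    · exact absurd hij hx.ne.symm
    · rfl
    · exact absurd hij hy.ne.symm
    · exact absurd hij hxy.symm
    · exact absurd hij hy.ne
    · rfl
  · intro i j hij h1 h2
    fin_cases i <;> fin_cases j
    · exact absurd rfl hij
    · exact hx
    · exact absurd ⟨rfl, rfl⟩ h1
    · exact hx.symm
    · exact absurd rfl hij
    · exact hy.symm
    · exact absurd ⟨rfl, rfl⟩ h2
    · exact hy
    · exact absurd rfl hij

/-- a triangle-free graph contains no `K_s` minus an edge with `s ≥ 4` -/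
theorem le_three {V : Type*} (G : SimpleGraph V) (hG : G.CliqueFree 3) (s : ℕ)
    (h : ∃ f : Fin s → V, Function.Injective f ∧ ∃ a b : Fin s, a ≠ b ∧
      ∀ i j : Fin s, i ≠ j → ¬(i = a ∧ j = b) → ¬(i = b ∧ j = a) → G.Adj (f i) (f j)) :
    s ≤ 3 := by
  obtain ⟨f, hf, a, b, hab, hadj⟩ := h
  by_contra hs
  push Not at hs
  have hc : 3 ≤ ((Finset.univ : Finset (Fin s)).erase a).card := by
    rw [Finset.card_erase_of_mem (Finset.mem_univ a), Finset.card_univ, Fintype.card_fin]
    omega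
  obtain ⟨t, ht, htc⟩ := Finset.exists_subset_card_eq hc
  apply hG (t.map ⟨f, hf⟩)
  constructor
  · intro p hp q hq hpq
    rw [Finset.mem_coe, Finset.mem_map] at hp hq
    obtain ⟨i, hi, rfl⟩ := hp
    obtain ⟨j, hj, rfl⟩ := hq
    have hia : i ≠ a := (Finset.mem_erase.1 (ht hi)).1
    have hja : j ≠ a := (Finset.mem_erase.1 (ht hj)).1
    exact hadj i j (fun e => hpq (by rw [e])) (fun h => hia h.1) (fun h => hja h.2)
  · rw [Finset.card_map, htc]

end Pool.Agent.Helper76.CT
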