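import Pool.Agent.Helper76.CT.Walsh

/-!
# Existence of the data

`K = F_(4^k)` with `k` odd: the absolute trace of a primitive cube root of unity is `k = 1`.
-/

open Finset

namespace Pool.Agent.Helper76.CT

theorem exists_dat {k : ℕ} (hk : Odd k) :
    ∃ (K : Type) (_ : Field K) (_ : Fintype K) (_ : DecidableEq K) (_ : Dat K),
      Fintype.card K = 4 ^ k := by
  classical
  have hk0 : 2 * k ≠ 0 := by
    rcases hk with ⟨m, rfl⟩
    omega
  have : Finite (GaloisField 2 (2 * k)) := by
    apply Nat.finite_of_card_ne_zero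
    rw [GaloisField.card 2 (2 * k) hk0]
    positivity
  let _ := Fintype.ofFinite (GaloisField 2 (2 * k))
  set K := GaloisField 2 (2 * k) with hK
  have hcard : Fintype.card K = 4 ^ k := by
    rw [← Nat.card_eq_fintype_card, GaloisField.card 2 (2 * k) hk0, pow_mul]
    norm_num
  have htwo : (2 : K) = 0 := by
    have := CharP.cast_eq_zero K 2
    exact_mod_cast this
  -- the cube root of unity
  obtain ⟨ω, hω⟩ : ∃ ω : K, ω ^ 2 + ω + 1 = 0 := by
    have h3 : 3 ∣ Fintype.card Kˣ := by
      rw [Fintype.card_units, hcard]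
      have := Nat.sub_dvd_pow_sub_pow 4 1 k
      simpa using this
    have : Fact (Nat.Prime 3) := ⟨by norm_num⟩
    obtain ⟨g, hg⟩ := exists_prime_orderOf_dvd_card 3 h3
    have hg3 : (g : K) ^ 3 = 1 := by
      have := pow_orderOf_eq_one g
      rw [hg] at this
      rw [← Units.val_pow_eq_pow_val, this, Units.val_one]
    have hg1 : (g : K) ≠ 1 := by
      intro h
      have : g = 1 := by
        ext
        simpa using h
      rw [this, orderOf_one] at hg
      omega
    refine ⟨(g : K), ?_⟩
    have h4 : ((g : K) - 1) * ((g : K) ^ 2 + g + 1) = 0 := by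
      linear_combination hg3
    rcases mul_eq_zero.1 h4 with h | h
    · exact absurd (sub_eq_zero.1 h) hg1
    · exact h
  have hω3 : ω ^ 3 = 1 := by linear_combination (ω - 1) * hω
  have hω4 : ∀ n : ℕ, ω ^ 4 ^ n = ω := by
    intro n
    induction n with
    | zero => simp
    | succ n ih =>
      rw [pow_succ, pow_mul, ih]
      linear_combination ω * hω3
  have hsum : ∀ n : ℕ, ∑ i ∈ range (2 * n), ω ^ 2 ^ i = (n : K) * (ω + ω ^ 2) := by
    intro n
    induction n with
    | zero => simp
    | succ n ih =>
      have e1 : 2 * (n + 1) = 2 * n + 1 + 1 := by ring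
      have e2 : ω ^ 2 ^ (2 * n) = ω := by
        rw [pow_mul]
        exact hω4 n
      have e3 : ω ^ 2 ^ (2 * n + 1) = ω ^ 2 := by
        rw [pow_succ, pow_mul, e2]
      rw [e1, sum_range_succ, sum_range_succ, ih, e2, e3]
      push_cast
      ring
  have htr : Algebra.trace (ZMod 2) K ω = 1 := by
    apply (algebraMap (ZMod 2) K).injective
    rw [FiniteField.algebraMap_trace_eq_sum_pow, GaloisField.finrank 2 hk0, Nat.card_zmod, hsum,
      map_one]
    obtain ⟨m, rfl⟩ := hk
    rw [Nat.cast_add, Nat.cast_mul, Nat.cast_one, Nat.cast_ofNat]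
    linear_combination (2 * (m : K) + 1) * hω - ((m : K) + 1) * htwo
  have hz : ∀ a : ZMod 2, a = 0 ∨ a = 1 := by decide
  refine ⟨K, inferInstance, inferInstance, inferInstance,
    { ψ := fun x => if Algebra.trace (ZMod 2) K x = 0 then 1 else -1
      ω := ω
      two := htwo
      val := ?_
      add := ?_
      sq := ?_
      om := hω
      psi_om := ?_ }, hcard⟩
  · intro x
    by_cases h : Algebra.trace (ZMod 2) K x = 0
    · left
      rw [if_pos h]
    · right
      rw [if_neg h]
  · intro x y
    rw [map_add]
    rcases hz (Algebra.trace (ZMod 2) K x) with h | h <;>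
      rcases hz (Algebra.trace (ZMod 2) K y) with h' | h' <;> rw [h, h']
    · norm_num
    · norm_num
    · norm_num
    · have : (1 : ZMod 2) + 1 = 0 := by decide
      rw [this]
      norm_num
  · intro x
    have h := Algebra.trace_eq_of_algEquiv
      (FiniteField.frobeniusAlgEquivOfAlgebraic (ZMod 2) K) x
    rw [FiniteField.coe_frobeniusAlgEquivOfAlgebraic] at h
    simp only [ZMod.card] at h
    rw [h]
  · simp only [htr]
    norm_num

end Pool.Agent.Helper76.CT
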