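import Pool.Agent.Helper76.CT.Mat
import Pool.Agent.Helper76.CT.Field

/-!
# Triangle-free graphs with critical exponent close to `2`
-/

open Finset Pool.Agent.Helper71.CE

namespace Pool.Agent.Helper76.CT

theorem exists_size {γ : ℝ} (h2 : γ < 2) (C : ℝ) :
    ∃ k : ℕ, Odd k ∧ 6 ≤ (2 : ℝ) ^ k ∧ C < ((2 : ℝ) ^ k) ^ (2 - γ) := by
  have t1 : Filter.Tendsto (fun n : ℕ => (2 : ℝ) ^ (2 * n + 1)) Filter.atTop Filter.atTop := by
    have t0 : Filter.Tendsto (fun n : ℕ => (2 : ℝ) ^ n) Filter.atTop Filter.atTop :=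
      tendsto_pow_atTop_atTop_of_one_lt (by norm_num)
    apply t0.comp
    exact Filter.tendsto_atTop_mono (fun n => (by omega : n ≤ 2 * n + 1)) Filter.tendsto_id
  have t2 := (tendsto_rpow_atTop (by linarith : 0 < 2 - γ)).comp t1
  obtain ⟨n, hn1, hn2⟩ := ((t1.eventually_ge_atTop 6).and (t2.eventually_gt_atTop C)).exists
  exact ⟨2 * n + 1, ⟨n, rfl⟩, hn1, hn2⟩

theorem numbers {s γ : ℝ} (hs : 6 ≤ s) (h1 : 1 < γ)
    (hC : 6 ^ γ / (1 - 2 ^ (1 - γ)) < s ^ (2 - γ)) :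
    ∃ α β : ℝ, 0 < α ∧ 0 < β ∧ 0 ≤ 1 - 2 * s * α - β * (4 * s + 2) ∧
      1 - α * s ^ 2 + β * (2 * s ^ 2 - 2) = 0 ∧
      1 - α ^ γ * s ^ 2 + β ^ γ * (2 * s ^ 2 - 2) < 0 := by
  have hs0 : 0 < s := by linarith
  have hs2 : 0 < s ^ 2 - 1 := by nlinarith
  set α := 1 / (6 * s) with hα
  set β := (α * s ^ 2 - 1) / (2 * (s ^ 2 - 1)) with hβ
  have hα0 : 0 < α := by positivity
  have hαs : α * s = 1 / 6 := by
    rw [hα]
    field_simp
  have hαs2 : α * s ^ 2 = s / 6 := by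
    rw [_root_.sq, ← mul_assoc, hαs]
    ring
  have hα1 : α ≤ 1 := by nlinarith
  have hs6 : 6 < s ∨ s = 6 := by
    rcases lt_or_eq_of_le hs with h | h
    · exact Or.inl h
    · exact Or.inr h.symm
  have hβ2 : β ≤ α / 2 := by
    rw [hβ, div_le_iff₀ (by positivity)]
    nlinarith
  have hbal : 1 - α * s ^ 2 + β * (2 * s ^ 2 - 2) = 0 := by
    rw [hβ]
    field_simp
    ring
  have hβ0' : 0 ≤ β := by
    rw [hβ]
    apply div_nonneg _ (by positivity)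
    rw [hαs2]
    linarith
  have hγ2 : (2 : ℝ) ^ (1 - γ) < 1 := Real.rpow_lt_one_of_one_lt_of_neg (by norm_num) (by linarith)
  have hkey : 1 - α ^ γ * s ^ 2 + β ^ γ * (2 * s ^ 2 - 2) < 0 := by
    have e1 : β ^ γ ≤ α ^ γ * 2 ^ (-γ) := by
      calc β ^ γ ≤ (α / 2) ^ γ := Real.rpow_le_rpow hβ0' hβ2 (by linarith)
        _ = α ^ γ * 2 ^ (-γ) := by
            rw [Real.div_rpow hα0.le (by norm_num), Real.rpow_neg (by norm_num), div_eq_mul_inv]
    have e2 : (2 : ℝ) ^ (-γ) * 2 = 2 ^ (1 - γ) := by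
      rw [show 1 - γ = -γ + 1 by ring, Real.rpow_add (by norm_num), Real.rpow_one]
    have e3 : α ^ γ * s ^ 2 = s ^ (2 - γ) / 6 ^ γ := by
      rw [hα, Real.div_rpow (by norm_num) (by positivity), Real.one_rpow,
        Real.mul_rpow (by norm_num) hs0.le, Real.rpow_sub hs0, Real.rpow_two]
      have : s ^ γ ≠ 0 := (Real.rpow_pos_of_pos hs0 γ).ne'
      have : (6 : ℝ) ^ γ ≠ 0 := (Real.rpow_pos_of_pos (by norm_num) γ).ne'
      field_simp
    have e4 : 1 < α ^ γ * s ^ 2 * (1 - 2 ^ (1 - γ)) := by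
      rw [e3]
      rw [div_lt_iff₀ (by linarith)] at hC
      rw [div_mul_eq_mul_div, lt_div_iff₀ (Real.rpow_pos_of_pos (by norm_num) γ)]
      linarith
    have e5 : 0 ≤ α ^ γ * 2 ^ (-γ) := by positivity
    have e6 : β ^ γ * (2 * s ^ 2 - 2) ≤ α ^ γ * 2 ^ (-γ) * (2 * s ^ 2) := by
      calc β ^ γ * (2 * s ^ 2 - 2) ≤ α ^ γ * 2 ^ (-γ) * (2 * s ^ 2 - 2) :=
            mul_le_mul_of_nonneg_right e1 (by linarith)
        _ ≤ α ^ γ * 2 ^ (-γ) * (2 * s ^ 2) := by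
            apply mul_le_mul_of_nonneg_left _ e5
            linarith
    have e7 : α ^ γ * 2 ^ (-γ) * (2 * s ^ 2) = α ^ γ * s ^ 2 * 2 ^ (1 - γ) := by
      rw [← e2]
      ring
    rw [e7] at e6
    linarith
  have hβ0 : 0 < β := by
    rcases lt_or_eq_of_le hβ0' with h | h
    · exact h
    · exfalso
      rw [← h, Real.zero_rpow (by linarith), zero_mul, add_zero] at hkey
      rw [← h, zero_mul, add_zero] at hbal
      have e8 : α ^ γ ≤ α := by
        calc α ^ γ ≤ α ^ (1 : ℝ) := Real.rpow_le_rpow_of_exponent_ge hα0 hα1 h1.le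
          _ = α := Real.rpow_one α
      nlinarith
  refine ⟨α, β, hα0, hβ0, ?_, hbal, hkey⟩
  have e9 : β * (4 * s + 2) ≤ α / 2 * (4 * s + 2) :=
    mul_le_mul_of_nonneg_right hβ2 (by positivity)
  have e10 : α / 2 * (4 * s + 2) = 1 / 3 + α := by
    linear_combination 2 * hαs
  have e11 : α ≤ 1 / 36 := by nlinarith
  have e12 : 2 * s * α = 1 / 3 := by linear_combination 2 * hαs
  rw [e12]
  linarith

section

variable {K : Type} [Field K] [Fintype K] [DecidableEq K] (P : Dat K)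

omit [Fintype K] in
theorem Dat.hpow_A (p q γ : ℝ) (hp : 0 < p) (hq : 0 < q) :
    hpow (P.A p q) γ = P.A (p ^ γ) (q ^ γ) := by
  funext u v
  unfold hpow Dat.A Dat.g pw
  split_ifs <;> simp_all

theorem Dat.inPG {p q : ℝ} (hp : 0 ≤ p) (hq : 0 ≤ q) (h : Psd (P.A p q)) :
    InPG P.G (P.A p q) := by
  refine ⟨h, ?_, ?_⟩
  · intro u v
    unfold Dat.A Dat.g
    split_ifs <;> simp_all
  · intro u v huv hn
    have h0 : u + v ≠ 0 := by
      intro h'
      apply huv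
      have h3 := P.add_self_V v
      calc u = u + (v + v) := by rw [h3, add_zero]
        _ = (u + v) + v := by abel
        _ = v := by rw [h', zero_add]
    have hn' : ¬ P.S (u + v) := hn
    unfold Dat.S at hn'
    unfold Dat.A Dat.g
    rw [if_neg h0, if_neg (fun h' => hn' ⟨h0, Or.inl h'⟩), if_neg (fun h' => hn' ⟨h0, Or.inr h'⟩)]

theorem Dat.ev_nonneg {s p q : ℝ} (hs : 0 ≤ s) (hK : s ^ 2 = Fintype.card K) (hp : 0 ≤ p)
    (hq : 0 ≤ q) (h1 : 0 ≤ 1 - 2 * s * p - q * (4 * s + 2))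
    (h2 : 1 - p * s ^ 2 + q * (2 * s ^ 2 - 2) = 0) (m : ZMod 2 × K × K) : 0 ≤ P.ev p q m := by
  rw [P.ev_eq]
  obtain ⟨e, a, b⟩ := m
  simp only
  have hsg : sg e = 1 ∨ sg e = -1 := by
    unfold sg
    split_ifs <;> simp
  by_cases hab : a = 0 ∧ b = 0
  · obtain ⟨rfl, rfl⟩ := hab
    simp only [zero_mul]
    rw [P.W_zero, ← hK]
    rcases hsg with h | h <;> rw [h]
    · have hs1 : 0 ≤ p * s ^ 2 := by positivity
      nlinarith
    · linarith
  · have hom := P.om_ne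
    have b1 := _root_.abs_le.1 (P.W_abs hab hs hK)
    have b2 := _root_.abs_le.1 (P.W_abs (a := a) (b := b * P.ω)
      (fun h => hab ⟨h.1, by simpa [hom] using h.2⟩) hs hK)
    have b3 := _root_.abs_le.1 (P.W_abs (a := a) (b := b * P.ω ^ 2)
      (fun h => hab ⟨h.1, by simpa [hom] using h.2⟩) hs hK)
    have c1 : -(2 * s * p) ≤ p * (sg e * P.W a b) := by
      rcases hsg with h | h <;> rw [h]
      · nlinarith
      · nlinarith
    have c2 : -(q * (4 * s + 2)) ≤ q * (P.W a (b * P.ω) + P.W a (b * P.ω ^ 2) - 2) := by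
      have : -(4 * s + 2) ≤ P.W a (b * P.ω) + P.W a (b * P.ω ^ 2) - 2 := by linarith
      nlinarith
    linarith

end

/-- For every `γ ∈ (1, 2)` there is a triangle-free graph whose matrices are not all
preserved by the entrywise power `γ`. -/
theorem lower {γ : ℝ} (h1 : 1 < γ) (h2 : γ < 2) :
    ∃ (V : Type) (_ : Fintype V) (G : SimpleGraph V), G.CliqueFree 3 ∧
      (∃ x y v, x ≠ y ∧ G.Adj x v ∧ G.Adj y v) ∧ ∃ A, InPG G A ∧ ¬ Psd (hpow A γ) := by
  obtain ⟨k, hk, hs, hC⟩ := exists_size h2 (6 ^ γ / (1 - 2 ^ (1 - γ)))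
  obtain ⟨α, β, hα, hβ, c1, c2, c3⟩ := numbers hs h1 hC
  obtain ⟨K, i1, i2, i3, P, hcard⟩ := exists_dat hk
  have hK : ((2 : ℝ) ^ k) ^ 2 = Fintype.card K := by
    rw [hcard, ← pow_mul, mul_comm, pow_mul]
    norm_num
  have hs0 : (0 : ℝ) ≤ 2 ^ k := by positivity
  have e10 : (1 : ZMod 2) ≠ 0 := by decide
  have hpsd : Psd (P.A α β) :=
    P.psd_of_ev fun m => P.ev_nonneg hs0 hK hα.le hβ.le c1 c2 m
  refine ⟨ZMod 2 × K × K, inferInstance, P.G, P.cliqueFree, ?_, P.A α β,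
    P.inPG hα.le hβ.le hpsd, ?_⟩
  · refine ⟨(1, 0, 0), (1, 1, 1), 0, ?_, ?_, ?_⟩
    · intro h
      exact zero_ne_one (congrArg (fun s => s.2.1) h)
    · show P.S _
      rw [add_zero]
      refine ⟨?_, Or.inl ⟨rfl, by simp⟩⟩
      intro h
      exact e10 (congrArg Prod.fst h)
    · show P.S _
      rw [add_zero]
      refine ⟨?_, Or.inl ⟨rfl, by simp⟩⟩
      intro h
      exact e10 (congrArg Prod.fst h)
  · intro h
    rw [P.hpow_A α β γ hα hβ] at h
    have h3 := P.ev_of_psd h (1, 0, 0)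
    rw [P.ev_eq] at h3
    simp only [zero_mul] at h3
    rw [P.W_zero, ← hK] at h3
    have : sg 1 = -1 := by simp [sg]
    rw [this] at h3
    linarith

end Pool.Agent.Helper76.CT
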