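import Pool.Agent.Helper76.CT.Strict2
import Pool.Agent.Helper76.CT.Lower

/-!
# Critical exponents of triangle-free graphs
-/

open Finset Pool.Agent.Helper71.CE

namespace Pool.Agent.Helper76.CT

variable {V : Type*} [Fintype V]

open Classical in
theorem near_two_count {G : SimpleGraph V} (hG : G.CliqueFree 3) (r : ℕ) :
    ∀ T : ℝ, 0 < T → T ≤ 1 → ∃ η > 0, ∀ β, 2 - η ≤ β → β ≤ 2 → ∀ N, Nm G N →
      (univ.filter fun p : V × V => p.1 ≠ p.2 ∧ 1 - T < N p.1 p.2).card ≤ r →
      Psd (hpow N β) := by
  induction r with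
  | zero =>
    intro T hT hT1
    obtain ⟨τ, hτ, hτT, η, hη, hη2, h⟩ := main_estimate hG hT hT1
    refine ⟨η, hη, fun β hβ1 hβ2 N hN hc => h β hβ1 hβ2 N hN fun i j hij => ?_⟩
    left
    by_contra hcon
    push Not at hcon
    have h1 : (i, j) ∈ univ.filter fun p : V × V => p.1 ≠ p.2 ∧ 1 - T < N p.1 p.2 :=
      mem_filter.2 ⟨mem_univ _, hij, hcon⟩
    have h2 := card_pos.2 ⟨_, h1⟩
    omega
  | succ r ih =>
    intro T hT hT1
    obtain ⟨τ, hτ, hτT, η, hη, hη2, h⟩ := main_estimate hG hT hT1
    obtain ⟨η', hη', h'⟩ := ih τ hτ (by linarith)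
    refine ⟨min η η', lt_min hη hη', fun β hβ1 hβ2 N hN hc => ?_⟩
    have m1 := min_le_left η η'
    have m2 := min_le_right η η'
    by_cases hd : ∀ i j, i ≠ j → N i j ≤ 1 - T ∨ 1 - τ < N i j
    · exact h β (by linarith) hβ2 N hN hd
    · push Not at hd
      obtain ⟨i, j, hij, h1, h2⟩ := hd
      apply h' β (by linarith) hβ2 N hN
      have hlt : (univ.filter fun p : V × V => p.1 ≠ p.2 ∧ 1 - τ < N p.1 p.2).card <
          (univ.filter fun p : V × V => p.1 ≠ p.2 ∧ 1 - T < N p.1 p.2).card := by
        apply card_lt_card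
        rw [Finset.ssubset_iff_of_subset]
        · refine ⟨(i, j), mem_filter.2 ⟨mem_univ _, hij, h1⟩, ?_⟩
          intro h3
          have h4 := (mem_filter.1 h3).2.2
          simp only at h4
          linarith
        · intro p hp
          have h3 := (mem_filter.1 hp).2
          exact mem_filter.2 ⟨mem_univ _, h3.1, by linarith [h3.2]⟩
      omega

theorem near_two_nm {G : SimpleGraph V} (hG : G.CliqueFree 3) :
    ∃ η > 0, ∀ β, 2 - η ≤ β → β ≤ 2 → ∀ N, Nm G N → Psd (hpow N β) := by
  classical
  obtain ⟨η, hη, h⟩ := near_two_count hG (Fintype.card (V × V)) 1 one_pos le_rfl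
  exact ⟨η, hη, fun β hβ1 hβ2 N hN => h β hβ1 hβ2 N hN (card_le_univ _)⟩

/-- normalisation -/
theorem normalise {G : SimpleGraph V} {A : V → V → ℝ} (hA : InPG G A) :
    ∃ N, Nm G N ∧ ∀ i j, A i j = Real.sqrt (A i i) * N i j * Real.sqrt (A j j) := by
  classical
  obtain ⟨hP, h0, hz⟩ := hA
  have hzero : ∀ i j, A i i = 0 → A i j = 0 := by
    intro i j h
    have := hP.minor i j
    rw [h, zero_mul] at this
    nlinarith [sq_nonneg (A i j)]
  have hzero' : ∀ i j, A j j = 0 → A i j = 0 := by
    intro i j h
    rw [hP.1 i j]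
    exact hzero j i h
  let N : V → V → ℝ := fun i j =>
    if i = j then 1 else A i j / (Real.sqrt (A i i) * Real.sqrt (A j j))
  have hNs : ∀ i j, N i j = N j i := by
    intro i j
    simp only [N]
    by_cases h : i = j
    · rw [if_pos h, if_pos h.symm]
    · rw [if_neg h, if_neg (Ne.symm h), hP.1 i j, mul_comm]
  refine ⟨N, ⟨⟨⟨hNs, ?_⟩, ?_, ?_⟩, ?_⟩, ?_⟩
  · intro x
    have h1 : qf N x = qf A (fun i => x i / Real.sqrt (A i i)) +
        ∑ i, (if A i i = 0 then x i ^ 2 else 0) := by
      unfold qf
      rw [← sum_add_distrib]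
      apply sum_congr rfl
      intro i _
      have e : (if A i i = 0 then x i ^ 2 else 0) =
          ∑ j, if j = i then (if A i i = 0 then x i ^ 2 else 0) else 0 := by
        rw [sum_ite_eq' univ i (fun _ => if A i i = 0 then x i ^ 2 else 0), if_pos (mem_univ i)]
      rw [e, ← sum_add_distrib]
      apply sum_congr rfl
      intro j _
      simp only [N]
      by_cases hij : i = j
      · subst hij
        rw [if_pos rfl, if_pos rfl]
        by_cases h : A i i = 0
        · rw [if_pos h, h]
          simp
          ring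
        · rw [if_neg h]
          have hs : Real.sqrt (A i i) ≠ 0 := Real.sqrt_ne_zero'.2 (lt_of_le_of_ne (h0 i i) (Ne.symm h))
          have hsq := Real.mul_self_sqrt (h0 i i)
          field_simp
          rw [Real.sq_sqrt (h0 i i)]
          ring
      · rw [if_neg hij, if_neg (Ne.symm hij), add_zero]
        by_cases hi : A i i = 0
        · rw [hzero i j hi]
          simp
        · by_cases hj : A j j = 0
          · rw [hzero' i j hj]
            simp
          · field_simp
    rw [h1]
    apply add_nonneg (hP.2 _)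
    apply sum_nonneg
    intro i _
    split_ifs
    · positivity
    · exact le_refl 0
  · intro i j
    simp only [N]
    split_ifs
    · norm_num
    · exact div_nonneg (h0 i j) (by positivity)
  · intro i j hij hG
    simp only [N]
    rw [if_neg hij, hz i j hij hG, zero_div]
  · intro i
    simp [N]
  · intro i j
    simp only [N]
    by_cases hij : i = j
    · subst hij
      rw [if_pos rfl, mul_one, Real.mul_self_sqrt (h0 i i)]
    · rw [if_neg hij]
      by_cases hi : A i i = 0
      · rw [hzero i j hi]
        simp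
      · by_cases hj : A j j = 0
        · rw [hzero' i j hj]
          simp
        · have si : Real.sqrt (A i i) ≠ 0 :=
            Real.sqrt_ne_zero'.2 (lt_of_le_of_ne (h0 i i) (Ne.symm hi))
          have sj : Real.sqrt (A j j) ≠ 0 :=
            Real.sqrt_ne_zero'.2 (lt_of_le_of_ne (h0 j j) (Ne.symm hj))
          field_simp

/-- For a triangle-free graph, all exponents `≥ 2 - η` preserve positivity, for some `η > 0`. -/
theorem strict {G : SimpleGraph V} (hG : G.CliqueFree 3) :
    ∃ α < 2, ∀ A, InPG G A → ∀ β, α ≤ β → Psd (hpow A β) := by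
  obtain ⟨η, hη, h⟩ := near_two_nm hG
  refine ⟨2 - η, by linarith, fun A hA β hβ => ?_⟩
  rcases le_total 2 β with h2 | h2
  · exact upper hG hA h2
  · obtain ⟨N, hN, hAN⟩ := normalise hA
    have h1 := h β hβ h2 N hN
    refine ⟨hpow_symm hA.1 β, fun x => ?_⟩
    have h3 := h1.2 (fun i => x i * pw β (Real.sqrt (A i i)))
    have e : qf (hpow A β) x = qf (hpow N β) (fun i => x i * pw β (Real.sqrt (A i i))) := by
      unfold qf
      apply sum_congr rfl
      intro i _
      apply sum_congr rfl
      intro j _
      show x i * pw β (A i j) * x j = x i * pw β (Real.sqrt (A i i)) * pw β (N i j) *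
        (x j * pw β (Real.sqrt (A j j)))
      rw [hAN i j, pw_mul (mul_nonneg (Real.sqrt_nonneg _) (hN.1.2.1 i j)) (Real.sqrt_nonneg _),
        pw_mul (Real.sqrt_nonneg _) (hN.1.2.1 i j)]
      ring
    rw [e]
    exact h3

/-- closedness of the set of good exponents from the right -/
theorem psd_limit {A : V → V → ℝ} (hA : ∀ i j, 0 ≤ A i j) {c : ℝ}
    (h : ∀ β, c < β → Psd (hpow A β)) : Psd (hpow A c) := by
  have hs : ∀ i j, hpow A c i j = hpow A c j i := by
    intro i j
    have h1 := (h (c + 1) (by linarith)).1 i j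
    have e : A i j = A j i := by
      have h2 : pw (c + 1) (A i j) = pw (c + 1) (A j i) := h1
      rcases (hA i j).lt_or_eq with a | a
      · rcases (hA j i).lt_or_eq with b | b
        · rw [pw_of_pos a, pw_of_pos b] at h2
          by_cases hc : c + 1 = 0
          · -- use the exponent c + 2
            have h3 : pw (c + 2) (A i j) = pw (c + 2) (A j i) :=
              (h (c + 2) (by linarith)).1 i j
            rw [pw_of_pos a, pw_of_pos b] at h3
            have hc2 : c + 2 = 1 := by linarith
            rw [hc2, Real.rpow_one, Real.rpow_one] at h3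
            exact h3
          · exact (Real.rpow_left_inj a.le b.le hc).1 h2
        · rw [← b, pw_zero] at h2
          exact absurd h2 (pw_pos a).ne'
      · rcases (hA j i).lt_or_eq with b | b
        · rw [← a, pw_zero] at h2
          exact absurd h2.symm (pw_pos b).ne'
        · rw [← a, ← b]
    show pw c (A i j) = pw c (A j i)
    rw [e]
  refine ⟨hs, fun x => ?_⟩
  have hcont : ∀ a : ℝ, 0 ≤ a → Continuous fun β : ℝ => pw β a := by
    intro a ha
    rcases ha.lt_or_eq with h1 | h1
    · have : (fun β : ℝ => pw β a) = fun β => a ^ β := by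
        funext β
        exact pw_of_pos h1
      rw [this]
      exact Real.continuous_const_rpow h1.ne'
    · have : (fun β : ℝ => pw β a) = fun _ => 0 := by
        funext β
        rw [← h1, pw_zero]
      rw [this]
      exact continuous_const
  have hq : Continuous fun β : ℝ => qf (hpow A β) x := by
    unfold qf
    refine continuous_finsetSum _ fun i _ => continuous_finsetSum _ fun j _ => ?_
    exact (continuous_const.mul (hcont _ (hA i j))).mul continuous_const
  have hlim : Filter.Tendsto (fun n : ℕ => qf (hpow A (c + 1 / ((n : ℝ) + 1))) x) Filter.atTop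
      (nhds (qf (hpow A c) x)) := by
    have h1 : Filter.Tendsto (fun n : ℕ => c + 1 / ((n : ℝ) + 1)) Filter.atTop (nhds c) := by
      have := tendsto_one_div_add_atTop_nhds_zero_nat (𝕜 := ℝ)
      simpa using this.const_add c
    exact (hq.tendsto c).comp h1
  apply ge_of_tendsto' hlim
  intro n
  apply (h _ _).2
  have : (0 : ℝ) < 1 / ((n : ℝ) + 1) := by positivity
  linarith

end Pool.Agent.Helper76.CT
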