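import Pool.Agent.Helper76.CT.Upper

/-!
# Triangle-free graphs: a uniform gap away from the perfect matchings

`Nm G N`: `N` is a normalised member of `P_G`.  If all the entries off the diagonal are `≤ 1 - T` then
the quadratic form of the entrywise power `β` is `≥ c |w|²` for all `β ≤ 2` close to `2`.
-/

open Finset Pool.Agent.Helper71.CE

namespace Pool.Agent.Helper76.CT

variable {V : Type*} [Fintype V]

/-- normalised members of `P_G` -/
def Nm (G : SimpleGraph V) (N : V → V → ℝ) : Prop := InPG G N ∧ ∀ i, N i i = 1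

theorem Nm.le_one {G : SimpleGraph V} {N : V → V → ℝ} (h : Nm G N) (i j : V) : N i j ≤ 1 := by
  have := h.1.1.minor i j
  rw [h.2, h.2] at this
  have h0 := h.1.2.1 i j
  nlinarith

/-- a zero of the quadratic form is in the kernel -/
theorem ker_of_qf_zero {A : V → V → ℝ} (hA : Psd A) {v : V → ℝ} (h : qf A v = 0) (k : V) :
    ∑ j, A k j * v j = 0 := by
  classical
  have h1 := ((psd_iff A).1 hA)
  have h2 := (h1.dotProduct_mulVec_zero_iff v).1 ?_
  · have := congrFun h2 k
    simpa [Matrix.mulVec, dotProduct] using this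
  · rw [← h]
    simp only [qf, dotProduct, Matrix.mulVec, Pi.star_apply, star_trivial, Finset.mul_sum]
    simp [mul_assoc]

theorem qf_sq_eq [DecidableEq V] {G : SimpleGraph V} {N : V → V → ℝ} (h : Nm G N) (w : V → ℝ) :
    ∑ i, ∑ j, w i * N i j ^ 2 * w j = ∑ i, (1 - ∑ j ∈ univ.erase i, N i j ^ 2) * w i ^ 2 +
      (∑ i, ∑ j ∈ univ.erase i, N i j ^ 2 * (w i + w j) ^ 2) / 2 := by
  have e1 : ∀ f : V → V → ℝ, ∑ i, ∑ j ∈ univ.erase i, f i j =
      ∑ i, ∑ j, if i = j then 0 else f i j := by
    intro f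
    apply sum_congr rfl
    intro i _
    rw [← Finset.add_sum_erase univ (fun j => if i = j then 0 else f i j) (mem_univ i),
      if_pos rfl, zero_add]
    apply sum_congr rfl
    intro j hj
    rw [if_neg (Finset.ne_of_mem_erase hj).symm]
  have e2 : ∑ i, ∑ j ∈ univ.erase i, N i j ^ 2 * w j ^ 2 =
      ∑ i, ∑ j ∈ univ.erase i, N i j ^ 2 * w i ^ 2 := by
    rw [e1, e1, sum_comm]
    apply sum_congr rfl
    intro i _
    apply sum_congr rfl
    intro j _
    by_cases hij : i = j
    · rw [if_pos hij.symm, if_pos hij]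
    · rw [if_neg (Ne.symm hij), if_neg hij, h.1.1.1 i j]
  have e3 : ∑ i, ∑ j, w i * N i j ^ 2 * w j =
      ∑ i, w i ^ 2 + ∑ i, ∑ j ∈ univ.erase i, w i * N i j ^ 2 * w j := by
    rw [← sum_add_distrib]
    apply sum_congr rfl
    intro i _
    rw [← Finset.add_sum_erase univ _ (mem_univ i), h.2 i]
    ring
  have e4 : ∑ i, ∑ j ∈ univ.erase i, N i j ^ 2 * (w i + w j) ^ 2 =
      ∑ i, ∑ j ∈ univ.erase i, N i j ^ 2 * w i ^ 2 + ∑ i, ∑ j ∈ univ.erase i, N i j ^ 2 * w j ^ 2 +
      2 * ∑ i, ∑ j ∈ univ.erase i, w i * N i j ^ 2 * w j := by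
    rw [mul_sum, ← sum_add_distrib, ← sum_add_distrib]
    apply sum_congr rfl
    intro i _
    rw [mul_sum, ← sum_add_distrib, ← sum_add_distrib]
    apply sum_congr rfl
    intro j _
    ring
  have e5 : ∑ i, (1 - ∑ j ∈ univ.erase i, N i j ^ 2) * w i ^ 2 =
      ∑ i, w i ^ 2 - ∑ i, ∑ j ∈ univ.erase i, N i j ^ 2 * w i ^ 2 := by
    rw [← sum_sub_distrib]
    apply sum_congr rfl
    intro i _
    rw [← sum_mul]
    ring
  rw [e3, e4, e2, e5]
  ring

theorem Nm.row [DecidableEq V] {G : SimpleGraph V} (hG : G.CliqueFree 3) {N : V → V → ℝ}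
    (h : Nm G N) (i : V) : ∑ j ∈ univ.erase i, N i j ^ 2 ≤ 1 := by
  have h1 := bessel hG h.1 i
  simp only [h.2, div_one] at h1
  exact h1

/-- the kernel of the entrywise square: a perfect matching -/
theorem ker_sq [DecidableEq V] {G : SimpleGraph V} (hG : G.CliqueFree 3) {N : V → V → ℝ}
    (h : Nm G N) {w : V → ℝ} (hw : ∑ i, ∑ j, w i * N i j ^ 2 * w j ≤ 0) {i : V} (hi : w i ≠ 0) :
    ∃ j, j ≠ i ∧ N i j = 1 := by
  rw [qf_sq_eq h] at hw
  have p1 : ∀ i ∈ (univ : Finset V), 0 ≤ (1 - ∑ j ∈ univ.erase i, N i j ^ 2) * w i ^ 2 :=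
    fun i _ => mul_nonneg (sub_nonneg.2 (h.row hG i)) (sq_nonneg _)
  have p2 : ∀ i ∈ (univ : Finset V), 0 ≤ ∑ j ∈ univ.erase i, N i j ^ 2 * (w i + w j) ^ 2 :=
    fun i _ => sum_nonneg fun j _ => by positivity
  have q1 := sum_nonneg p1
  have q2 := sum_nonneg p2
  have r1 : ∑ i, (1 - ∑ j ∈ univ.erase i, N i j ^ 2) * w i ^ 2 = 0 := by linarith
  have r2 : ∑ i, ∑ j ∈ univ.erase i, N i j ^ 2 * (w i + w j) ^ 2 = 0 := by linarith
  have s1 := (sum_eq_zero_iff_of_nonneg p1).1 r1
  have s2 := (sum_eq_zero_iff_of_nonneg p2).1 r2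
  have t1 : ∀ i, w i ≠ 0 → ∑ j ∈ univ.erase i, N i j ^ 2 = 1 := by
    intro i hi
    have := s1 i (mem_univ i)
    rcases mul_eq_zero.1 this with h1 | h1
    · linarith
    · exact absurd h1 (pow_ne_zero 2 hi)
  have t2 : ∀ i j, j ≠ i → N i j ≠ 0 → w j = - w i := by
    intro i j hij hn
    have h1 := s2 i (mem_univ i)
    have h2 := (sum_eq_zero_iff_of_nonneg (fun j _ => by positivity)).1 h1 j
      (mem_erase.2 ⟨hij, mem_univ j⟩)
    rcases mul_eq_zero.1 h2 with h3 | h3
    · exact absurd h3 (pow_ne_zero 2 hn)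
    · have h4 : w i + w j = 0 := by
        have := pow_eq_zero_iff (n := 2) (by norm_num) |>.1 h3
        exact this
      linarith
  -- the vector of `i` is the combination of its neighbours
  have t3 : ∀ i, w i ≠ 0 → ∀ k, N k i = ∑ j ∈ univ.erase i, N i j * N k j := by
    intro i hi k
    have hz : qf N (fun j => if j = i then 1 else -N i j) = 0 := by
      apply le_antisymm _ (h.1.1.2 _)
      have hrow : ∀ j ∈ univ.erase i, ∑ k, (if j = i then (1 : ℝ) else -N i j) * N j k *
          (if k = i then 1 else -N i k) = 0 := by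
        intro j hj
        have hji := Finset.ne_of_mem_erase hj
        rw [← Finset.add_sum_erase univ _ (mem_univ i), if_neg hji, if_pos rfl,
          Finset.sum_eq_single j]
        · rw [if_neg hji, h.2 j, h.1.1.1 j i]
          ring
        · intro k hk hkj
          rw [if_neg (Finset.ne_of_mem_erase hk)]
          by_cases e1 : N i j = 0
          · rw [e1]
            ring
          by_cases e2 : N i k = 0
          · rw [e2]
            ring
          have a1 : G.Adj i j := by
            by_contra h'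
            exact e1 (h.1.2.2 i j hji.symm h')
          have a2 : G.Adj i k := by
            by_contra h'
            exact e2 (h.1.2.2 i k (Finset.ne_of_mem_erase hk).symm h')
          have a3 : ¬ G.Adj j k := by
            intro a3
            exact hG {i, j, k} (SimpleGraph.is3Clique_triple_iff.2 ⟨a1, a2, a3⟩)
          rw [h.1.2.2 j k (Ne.symm hkj) a3]
          ring
        · intro h'
          exact absurd hj h'
      unfold qf
      rw [← Finset.add_sum_erase univ _ (mem_univ i), Finset.sum_congr rfl hrow, sum_const_zero,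
        add_zero, ← Finset.add_sum_erase univ _ (mem_univ i)]
      have : ∀ k ∈ univ.erase i, (if i = i then (1 : ℝ) else -N i i) * N i k *
          (if k = i then 1 else -N i k) = -(N i k ^ 2) := by
        intro k hk
        rw [if_pos rfl, if_neg (Finset.ne_of_mem_erase hk)]
        ring
      rw [Finset.sum_congr rfl this, sum_neg_distrib, t1 i hi]
      simp [h.2 i]
    have h1 := ker_of_qf_zero h.1.1 hz k
    rw [← Finset.add_sum_erase univ _ (mem_univ i), if_pos rfl] at h1
    have : ∀ j ∈ univ.erase i, N k j * (if j = i then 1 else -N i j) = -(N i j * N k j) := by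
      intro j hj
      rw [if_neg (Finset.ne_of_mem_erase hj)]
      ring
    rw [Finset.sum_congr rfl this, sum_neg_distrib] at h1
    linarith
  -- a neighbour
  obtain ⟨j, hj, hjn⟩ : ∃ j ∈ univ.erase i, N i j ≠ 0 := by
    by_contra hcon
    push Not at hcon
    have := t1 i hi
    rw [Finset.sum_eq_zero (fun j hj => by rw [hcon j hj]; ring)] at this
    norm_num at this
  have hji := Finset.ne_of_mem_erase hj
  refine ⟨j, hji, ?_⟩
  have hwj : w j ≠ 0 := by
    rw [t2 i j hji hjn]
    exact neg_ne_zero.2 hi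
  -- all other entries of the row `j` vanish
  have hrow : ∀ k ∈ univ.erase j, k ≠ i → N j k = 0 := by
    intro k hk hki
    have a1 : G.Adj i j := by
      by_contra h'
      exact hjn (h.1.2.2 i j hji.symm h')
    by_cases a2 : G.Adj i k
    · apply h.1.2.2 j k (Finset.ne_of_mem_erase hk).symm
      intro a3
      exact hG {i, j, k} (SimpleGraph.is3Clique_triple_iff.2 ⟨a1, a2, a3⟩)
    · have h1 := t3 i hi k
      have h2 : N k i = 0 := h.1.2.2 k i hki (fun h' => a2 h'.symm)
      rw [h2] at h1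
      have h3 := (sum_eq_zero_iff_of_nonneg (fun l _ =>
        mul_nonneg (h.1.2.1 i l) (h.1.2.1 k l))).1 h1.symm j hj
      rcases mul_eq_zero.1 h3 with h4 | h4
      · exact absurd h4 hjn
      · rw [h.1.1.1 j k]
        exact h4
  have h5 := t1 j hwj
  rw [Finset.sum_eq_single i] at h5
  · have h6 := h.1.2.1 j i
    have h7 : N j i = 1 := by
      have : (N j i - 1) * (N j i + 1) = 0 := by linarith
      rcases mul_eq_zero.1 this with h8 | h8
      · linarith
      · linarith
    rw [h.1.1.1 i j]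
    exact h7
  · intro k hk hki
    rw [hrow k hk hki]
    ring
  · intro h'
    exact absurd (mem_erase.2 ⟨hji.symm, mem_univ i⟩) h'

end Pool.Agent.Helper76.CT
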