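import Pool.Agent.Helper76.CT.Gap

/-!
# The uniform gap for exponents close to `2`
-/

open Finset Pool.Agent.Helper71.CE

namespace Pool.Agent.Helper76.CT

variable {V : Type*} [Fintype V]

theorem isClosed_psd : IsClosed {A : V → V → ℝ | Psd A} := by
  have h : {A : V → V → ℝ | Psd A} =
      (⋂ i, ⋂ j, {A : V → V → ℝ | A i j = A j i}) ∩ ⋂ x : V → ℝ, {A | 0 ≤ qf A x} := by
    ext A
    simp only [Set.mem_ofPred_eq, Set.mem_inter_iff, Set.mem_iInter]
    rfl
  rw [h]
  apply IsClosed.inter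
  · apply isClosed_iInter
    intro i
    apply isClosed_iInter
    intro j
    exact isClosed_eq (by fun_prop) (by fun_prop)
  · apply isClosed_iInter
    intro x
    apply isClosed_le continuous_const
    unfold qf
    fun_prop

theorem gap_two [DecidableEq V] {G : SimpleGraph V} (hG : G.CliqueFree 3) {T : ℝ} (hT : 0 < T) :
    ∃ c > 0, ∀ N, Nm G N → (∀ i j, i ≠ j → N i j ≤ 1 - T) → ∀ w : V → ℝ,
      c * ∑ i, w i ^ 2 ≤ ∑ i, ∑ j, w i * N i j ^ 2 * w j := by
  let F : (V → V → ℝ) × (V → ℝ) → ℝ := fun z => ∑ i, ∑ j, z.2 i * z.1 i j ^ 2 * z.2 j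
  have hF : Continuous F := by fun_prop
  let X : Set ((V → V → ℝ) × (V → ℝ)) :=
    {z | Psd z.1 ∧ (∀ i j, 0 ≤ z.1 i j) ∧ (∀ i j, i ≠ j → ¬ G.Adj i j → z.1 i j = 0) ∧
      (∀ i, z.1 i i = 1) ∧ (∀ i j, i ≠ j → z.1 i j ≤ 1 - T) ∧ ∑ i, z.2 i ^ 2 = 1}
  have hXc : IsCompact X := by
    have hB : IsCompact ((Set.univ.pi fun _ : V => Set.univ.pi fun _ : V => Set.Icc (-1 : ℝ) 1) ×ˢ
        (Set.univ.pi fun _ : V => Set.Icc (-1 : ℝ) 1)) := by
      apply IsCompact.prod
      · apply isCompact_univ_pi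
        intro i
        apply isCompact_univ_pi
        intro j
        exact isCompact_Icc
      · apply isCompact_univ_pi
        intro i
        exact isCompact_Icc
    apply hB.of_isClosed_subset
    · have e : X = {z | Psd z.1} ∩ ((⋂ i, ⋂ j, {z | 0 ≤ z.1 i j}) ∩
          ((⋂ i, ⋂ j, ⋂ (_ : i ≠ j), ⋂ (_ : ¬ G.Adj i j), {z | z.1 i j = 0}) ∩
          ((⋂ i, {z | z.1 i i = 1}) ∩ ((⋂ i, ⋂ j, ⋂ (_ : i ≠ j), {z | z.1 i j ≤ 1 - T}) ∩
          {z | ∑ i, z.2 i ^ 2 = 1})))) := by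
        ext z
        simp only [X, Set.mem_ofPred_eq, Set.mem_inter_iff, Set.mem_iInter]
      rw [e]
      refine IsClosed.inter (isClosed_psd.preimage continuous_fst) (IsClosed.inter ?_
        (IsClosed.inter ?_ (IsClosed.inter ?_ (IsClosed.inter ?_ ?_))))
      · exact isClosed_iInter fun i => isClosed_iInter fun j =>
          isClosed_le continuous_const (by fun_prop)
      · exact isClosed_iInter fun i => isClosed_iInter fun j => isClosed_iInter fun _ =>
          isClosed_iInter fun _ => isClosed_eq (by fun_prop) continuous_const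
      · exact isClosed_iInter fun i => isClosed_eq (by fun_prop) continuous_const
      · exact isClosed_iInter fun i => isClosed_iInter fun j => isClosed_iInter fun _ =>
          isClosed_le (by fun_prop) continuous_const
      · exact isClosed_eq (by fun_prop) continuous_const
    · rintro z ⟨h1, h2, h3, h4, h5, h6⟩
      have hN : Nm G z.1 := ⟨⟨h1, h2, h3⟩, h4⟩
      refine ⟨?_, ?_⟩
      · intro i _ j _
        exact ⟨by linarith [h2 i j], hN.le_one i j⟩
      · intro i _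
        have : z.2 i ^ 2 ≤ 1 := by
          rw [← h6]
          exact Finset.single_le_sum (f := fun i => z.2 i ^ 2) (fun i _ => sq_nonneg _)
            (mem_univ i)
        constructor <;> nlinarith
  -- homogeneity
  have hhom : ∀ (N : V → V → ℝ) (w : V → ℝ) (t : ℝ),
      F (N, fun i => t * w i) = t ^ 2 * F (N, w) := by
    intro N w t
    simp only [F, mul_sum]
    apply sum_congr rfl
    intro i _
    apply sum_congr rfl
    intro j _
    ring
  have hnorm : ∀ (N : V → V → ℝ), Nm G N → (∀ i j, i ≠ j → N i j ≤ 1 - T) → ∀ w : V → ℝ,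
      0 < ∑ i, w i ^ 2 → (N, fun i => (Real.sqrt (∑ i, w i ^ 2))⁻¹ * w i) ∈ X := by
    intro N hN hT' w hw
    refine ⟨hN.1.1, hN.1.2.1, hN.1.2.2, hN.2, hT', ?_⟩
    simp only [mul_pow, ← mul_sum]
    rw [inv_pow, Real.sq_sqrt hw.le, inv_mul_cancel₀ hw.ne']
  by_cases hX : X.Nonempty
  · obtain ⟨z, hz, hmin⟩ := hXc.exists_isMinOn hX hF.continuousOn
    have hm : 0 < F z := by
      obtain ⟨h1, h2, h3, h4, h5, h6⟩ := hz
      by_contra hcon
      push Not at hcon
      obtain ⟨i, hi⟩ : ∃ i, z.2 i ≠ 0 := by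
        by_contra hc
        push Not at hc
        have : ∑ i, z.2 i ^ 2 = 0 := Finset.sum_eq_zero fun i _ => by rw [hc i]; ring
        rw [this] at h6
        norm_num at h6
      have hN : Nm G z.1 := ⟨⟨h1, h2, h3⟩, h4⟩
      obtain ⟨j, hji, hj⟩ := ker_sq hG hN (w := z.2) hcon hi
      have := h5 i j hji.symm
      linarith
    refine ⟨F z, hm, ?_⟩
    intro N hN hT' w
    rcases (sum_nonneg fun i _ => sq_nonneg (w i) : 0 ≤ ∑ i, w i ^ 2).lt_or_eq with hw | hw
    · have h1 := hmin (hnorm N hN hT' w hw)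
      have h2 : F z ≤ F (N, fun i => (Real.sqrt (∑ i, w i ^ 2))⁻¹ * w i) := h1
      rw [hhom, inv_pow, Real.sq_sqrt hw.le, inv_mul_eq_div, le_div_iff₀ hw] at h2
      exact h2
    · rw [← hw, mul_zero]
      have hw0 : ∀ i, w i = 0 := by
        intro i
        have := (sum_eq_zero_iff_of_nonneg (fun i _ => sq_nonneg (w i))).1 hw.symm i (mem_univ i)
        exact pow_eq_zero_iff (n := 2) (by norm_num) |>.1 this
      apply le_of_eq
      symm
      apply sum_eq_zero
      intro i _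
      apply sum_eq_zero
      intro j _
      rw [hw0 i]
      ring
  · refine ⟨1, one_pos, ?_⟩
    intro N hN hT' w
    rcases (sum_nonneg fun i _ => sq_nonneg (w i) : 0 ≤ ∑ i, w i ^ 2).lt_or_eq with hw | hw
    · exact absurd ⟨_, hnorm N hN hT' w hw⟩ hX
    · rw [← hw, mul_zero]
      have hw0 : ∀ i, w i = 0 := by
        intro i
        have := (sum_eq_zero_iff_of_nonneg (fun i _ => sq_nonneg (w i))).1 hw.symm i (mem_univ i)
        exact pow_eq_zero_iff (n := 2) (by norm_num) |>.1 this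
      apply le_of_eq
      symm
      apply sum_eq_zero
      intro i _
      apply sum_eq_zero
      intro j _
      rw [hw0 i]
      ring

theorem pw_near_sq {n β : ℝ} (h0 : 0 ≤ n) (h1 : n ≤ 1) (hβ1 : 1 ≤ β) (hβ2 : β ≤ 2) :
    |pw β n - n ^ 2| ≤ 2 - β := by
  rcases h0.lt_or_eq with h | h
  · rw [pw_of_pos h]
    have h2 : n ^ (2 : ℝ) ≤ n ^ β := Real.rpow_le_rpow_of_exponent_ge h h1 hβ2
    rw [Real.rpow_two] at h2
    have h3 := Real.geom_mean_le_arith_mean2_weighted (p₁ := n) (p₂ := n ^ 2) (w₁ := 2 - β)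
      (w₂ := β - 1) (by linarith) (by linarith) h0 (by positivity) (by ring)
    have h4 : n ^ (2 - β) * (n ^ 2) ^ (β - 1) = n ^ β := by
      rw [← Real.rpow_natCast n 2, ← Real.rpow_mul h0, ← Real.rpow_add h]
      congr 1
      push_cast
      ring
    rw [h4] at h3
    rw [abs_le]
    constructor
    · linarith
    · nlinarith [mul_nonneg (by linarith : 0 ≤ 2 - β) (by nlinarith : 0 ≤ 1 - n + n ^ 2)]
  · rw [← h, pw_zero]
    simp
    linarith

theorem gap_beta [DecidableEq V] {G : SimpleGraph V} (hG : G.CliqueFree 3) {T : ℝ} (hT : 0 < T) :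
    ∃ c > 0, ∃ η > 0, η ≤ 1 / 2 ∧ ∀ β, 2 - η ≤ β → β ≤ 2 → ∀ N, Nm G N →
      (∀ i j, i ≠ j → N i j ≤ 1 - T) → ∀ w : V → ℝ, c * ∑ i, w i ^ 2 ≤ qf (hpow N β) w := by
  obtain ⟨c, hc, h⟩ := gap_two hG hT
  have hV : (0 : ℝ) ≤ Fintype.card V := by positivity
  refine ⟨c / 2, by positivity, min (1 / 2) (c / (2 * (Fintype.card V + 1))), by positivity,
    min_le_left _ _, ?_⟩
  intro β hβ1 hβ2 N hN hT' w
  have h1 := h N hN hT' w
  have hη : 2 - β ≤ c / (2 * (Fintype.card V + 1)) := by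
    have := min_le_right (1 / 2 : ℝ) (c / (2 * (Fintype.card V + 1)))
    linarith
  have hη2 : 2 - β ≤ 1 / 2 := by
    have := min_le_left (1 / 2 : ℝ) (c / (2 * (Fintype.card V + 1)))
    linarith
  have h2 : ∑ i, ∑ j, w i * N i j ^ 2 * w j - (2 - β) * (Fintype.card V * ∑ i, w i ^ 2) ≤
      qf (hpow N β) w := by
    have e1 : (Fintype.card V : ℝ) * ∑ i, w i ^ 2 = ∑ i, ∑ j, (w i ^ 2 + w j ^ 2) / 2 := by
      have a1 : ∑ i, ∑ _j : V, w i ^ 2 = (Fintype.card V : ℝ) * ∑ i, w i ^ 2 := by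
        simp only [sum_const, card_univ, nsmul_eq_mul, mul_sum]
      have a2 : ∑ _i : V, ∑ j, w j ^ 2 = (Fintype.card V : ℝ) * ∑ i, w i ^ 2 := by
        simp only [sum_const, card_univ, nsmul_eq_mul]
      simp only [← sum_div, sum_add_distrib]
      rw [a1, a2]
      ring
    rw [e1, mul_sum, ← sum_sub_distrib]
    unfold qf
    apply sum_le_sum
    intro i _
    rw [mul_sum, ← sum_sub_distrib]
    apply sum_le_sum
    intro j _
    have a3 := pw_near_sq (hN.1.2.1 i j) (hN.le_one i j) (by linarith : 1 ≤ β) hβ2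
    show _ ≤ w i * pw β (N i j) * w j
    have a4 : |w i * w j * (pw β (N i j) - N i j ^ 2)| ≤ (w i ^ 2 + w j ^ 2) / 2 * (2 - β) := by
      rw [abs_mul]
      apply mul_le_mul _ a3 (abs_nonneg _) (by positivity)
      rw [abs_le]
      constructor <;> nlinarith [sq_nonneg (w i - w j), sq_nonneg (w i + w j)]
    have a5 := (abs_le.1 a4).1
    nlinarith
  have hS : 0 ≤ ∑ i, w i ^ 2 := sum_nonneg fun i _ => sq_nonneg _
  have h3 : (2 - β) * (Fintype.card V * ∑ i, w i ^ 2) ≤ c / 2 * ∑ i, w i ^ 2 := by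
    have h4 : (2 - β) * Fintype.card V ≤ c / 2 := by
      calc (2 - β) * (Fintype.card V : ℝ) ≤ c / (2 * (Fintype.card V + 1)) * (Fintype.card V + 1) :=
            mul_le_mul hη (by linarith) hV (by positivity)
        _ = c / 2 := by
            field_simp
    calc (2 - β) * (Fintype.card V * ∑ i, w i ^ 2) = (2 - β) * Fintype.card V * ∑ i, w i ^ 2 := by
          ring
      _ ≤ c / 2 * ∑ i, w i ^ 2 := mul_le_mul_of_nonneg_right h4 hS
  linarith

end Pool.Agent.Helper76.CT
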