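import Pool.Agent.Helper76.CT.Walsh
import Pool.Agent.Helper71.CE.Dec

/-!
# The triangle-free Cayley graph and its matrices

Vertices: `F_2 × K × K`; connection set: `(1, x, x³)` and `(0, x, ω x³)`, `(0, x, ω² x³)`, `x ≠ 0`.
-/

open Finset Pool.Agent.Helper71.CE

namespace Pool.Agent.Helper76.CT

variable {K : Type} [Field K] [Fintype K] [DecidableEq K] (P : Dat K)

/-- The function defining the matrices. -/
def Dat.g (p q : ℝ) (s : ZMod 2 × K × K) : ℝ :=
  if s = 0 then 1 else if s.1 = 1 ∧ s.2.2 = s.2.1 ^ 3 then p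
  else if s.1 = 0 ∧ (s.2.2 = P.ω * s.2.1 ^ 3 ∨ s.2.2 = P.ω ^ 2 * s.2.1 ^ 3) then q else 0

/-- The connection set. -/
def Dat.S (s : ZMod 2 × K × K) : Prop :=
  s ≠ 0 ∧ ((s.1 = 1 ∧ s.2.2 = s.2.1 ^ 3) ∨
    (s.1 = 0 ∧ (s.2.2 = P.ω * s.2.1 ^ 3 ∨ s.2.2 = P.ω ^ 2 * s.2.1 ^ 3)))

omit [Fintype K] [DecidableEq K] in
include P in
theorem Dat.add_self_V (u : ZMod 2 × K × K) : u + u = 0 := by
  have h2 : ∀ a : ZMod 2, a + a = 0 := by decide
  refine Prod.ext (h2 _) (Prod.ext ?_ ?_)
  · exact P.add_self _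
  · exact P.add_self _

/-- The graph. -/
def Dat.G : SimpleGraph (ZMod 2 × K × K) where
  Adj u v := P.S (u + v)
  symm := ⟨fun u v h => by rwa [add_comm]⟩
  loopless := ⟨fun u h => h.1 (P.add_self_V u)⟩

omit [Fintype K] [DecidableEq K] in
theorem Dat.om_ne : P.ω ≠ 0 := by
  intro h
  have := P.om
  rw [h] at this
  norm_num at this

omit [Fintype K] [DecidableEq K] in
theorem Dat.om3 : P.ω ^ 3 = 1 := by
  linear_combination (P.ω - 1) * P.om

omit [Fintype K] [DecidableEq K] in
/-- no element of trace one is of the form `t + t²` -/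
theorem Dat.no_root {c x y : K} (hc : P.ψ (c + 1) = -1) (hz : x + y ≠ 0) :
    x ^ 3 + y ^ 3 ≠ c * (x + y) ^ 3 := by
  intro h
  have h1 : x * y = (c + 1) * (x + y) ^ 2 := by
    have h2 : (x + y) * (x * y - (c + 1) * (x + y) ^ 2) = 0 := by
      linear_combination h - (x ^ 3 + y ^ 3 + x ^ 2 * y + x * y ^ 2) * P.two
    rcases mul_eq_zero.1 h2 with h3 | h3
    · exact absurd h3 hz
    · exact sub_eq_zero.1 h3
  have h2 : (x / (x + y)) ^ 2 + x / (x + y) = c + 1 := by
    field_simp
    linear_combination h1 + x ^ 2 * P.two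
  rw [← h2, P.add, P.sq, P.mul_self] at hc
  norm_num at hc

omit [Fintype K] [DecidableEq K] in
theorem Dat.psi_om1 : P.ψ (P.ω + 1) = -1 := by
  have : P.ω + 1 = P.ω ^ 2 := by linear_combination P.om - P.ω ^ 2 * P.two
  rw [this, P.sq, P.psi_om]

omit [Fintype K] [DecidableEq K] in
theorem Dat.psi_om2 : P.ψ (P.ω ^ 2 + 1) = -1 := by
  have : P.ω ^ 2 + 1 = P.ω := by linear_combination P.om - P.ω * P.two
  rw [this, P.psi_om]

omit [Fintype K] [DecidableEq K] in
include P in
theorem Dat.cube_ne {x y : K} (hx : x ≠ 0) (hy : y ≠ 0) (hz : x + y ≠ 0) :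
    x ^ 3 + y ^ 3 ≠ (x + y) ^ 3 := by
  intro h
  have h1 : x * y * (x + y) = 0 := by
    linear_combination -h - (x ^ 2 * y + x * y ^ 2) * P.two
  rcases mul_eq_zero.1 h1 with h2 | h2
  · rcases mul_eq_zero.1 h2 with h3 | h3
    · exact hx h3
    · exact hy h3
  · exact hz h2

omit [Fintype K] [DecidableEq K] in
theorem Dat.sumfree {a b : ZMod 2 × K × K} (ha : P.S a) (hb : P.S b) (hab : P.S (a + b)) :
    False := by
  obtain ⟨e1, x1, y1⟩ := a
  obtain ⟨e2, x2, y2⟩ := b
  have k1 := @Dat.no_root K _ P P.ω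
  have k2 := @Dat.no_root K _ P (P.ω ^ 2)
  have o1 := P.psi_om1
  have o2 := P.psi_om2
  have w0 := P.om_ne
  have w3 := P.om3
  -- a nonzero element of the second kind has a nonzero middle coordinate
  have nz : ∀ {x y c : K}, ((0 : ZMod 2), x, y) ≠ 0 → y = c * x ^ 3 → x ≠ 0 := by
    intro x y c h hy hx
    subst hx
    apply h
    rw [hy]
    simp
  have back : ∀ {x y c : K}, P.ψ (c + 1) = -1 → y ≠ 0 → x ^ 3 + c * y ^ 3 ≠ (x + y) ^ 3 := by
    intro x y c hc hy h
    have h1 : x + (x + y) ≠ 0 := by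
      intro h2
      apply hy
      linear_combination h2 - x * P.two
    apply P.no_root hc h1
    have h3 : x + (x + y) = y := by linear_combination x * P.two
    rw [h3]
    linear_combination -h + x ^ 3 * P.two
  obtain ⟨n1, s1⟩ := ha
  obtain ⟨n2, s2⟩ := hb
  obtain ⟨n3, s3⟩ := hab
  simp only [Prod.mk_add_mk] at n3 s3
  simp only at s1 s2
  rcases s1 with ⟨d1, h1⟩ | ⟨d1, h1⟩ <;> rcases s2 with ⟨d2, h2⟩ | ⟨d2, h2⟩ <;> subst d1 <;> subst d2
  · -- both of the first kind
    have e : (1 : ZMod 2) + 1 = 0 := by decide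
    rw [e] at s3 n3
    rcases s3 with ⟨d3, h3⟩ | ⟨d3, h3⟩
    · exact absurd d3 (by decide)
    · rcases h3 with h3 | h3
      · exact k1 o1 (nz n3 h3) (by rw [← h1, ← h2]; exact h3)
      · exact k2 o2 (nz n3 h3) (by rw [← h1, ← h2]; exact h3)
  · rcases s3 with ⟨d3, h3⟩ | ⟨d3, h3⟩
    · rw [h1] at h3
      rcases h2 with h2 | h2
      · rw [h2] at h3
        exact back o1 (nz n2 h2) h3
      · rw [h2] at h3
        exact back o2 (nz n2 h2) h3
    · exact absurd d3 (by decide)
  · rcases s3 with ⟨d3, h3⟩ | ⟨d3, h3⟩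
    · rw [h2] at h3
      rcases h1 with h1 | h1
      · rw [h1, add_comm, add_comm x1] at h3
        exact back o1 (nz n1 h1) h3
      · rw [h1, add_comm, add_comm x1] at h3
        exact back o2 (nz n1 h1) h3
    · exact absurd d3 (by decide)
  · rcases s3 with ⟨d3, h3⟩ | ⟨d3, h3⟩
    · exact absurd d3 (by decide)
    · have e : (0 : ZMod 2) + 0 = 0 := by decide
      rw [e] at n3
      have x1n : x1 ≠ 0 := by
        rcases h1 with h | h
        · exact nz n1 h
        · exact nz n1 h
      have x2n : x2 ≠ 0 := by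
        rcases h2 with h | h
        · exact nz n2 h
        · exact nz n2 h
      have x3n : x1 + x2 ≠ 0 := by
        rcases h3 with h | h
        · exact nz n3 h
        · exact nz n3 h
      rcases h1 with h1 | h1 <;> rcases h2 with h2 | h2 <;> rcases h3 with h3 | h3 <;>
        rw [h1, h2] at h3
      · apply P.cube_ne x1n x2n x3n
        apply mul_left_cancel₀ w0
        linear_combination h3
      · apply k1 o1 x3n
        apply mul_left_cancel₀ w0
        linear_combination h3
      · -- ω, ω², ω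
        apply back (x := x1) (y := x2) o1 x2n
        apply mul_left_cancel₀ w0
        linear_combination h3
      · -- ω, ω², ω²
        apply back (x := x2) (y := x1) o2 x1n
        apply mul_left_cancel₀ (pow_ne_zero 2 w0)
        linear_combination h3 + P.ω * x1 ^ 3 * w3
      · -- ω², ω, ω
        apply back (x := x2) (y := x1) o1 x1n
        apply mul_left_cancel₀ w0
        linear_combination h3
      · -- ω², ω, ω²
        apply back (x := x1) (y := x2) o2 x2n
        apply mul_left_cancel₀ (pow_ne_zero 2 w0)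
        linear_combination h3 + P.ω * x2 ^ 3 * w3
      · -- ω², ω², ω
        apply k2 o2 x3n
        apply mul_left_cancel₀ (pow_ne_zero 2 w0)
        linear_combination h3 - P.ω * (x1 + x2) ^ 3 * w3
      · apply P.cube_ne x1n x2n x3n
        apply mul_left_cancel₀ (pow_ne_zero 2 w0)
        linear_combination h3

omit [Fintype K] [DecidableEq K] in
theorem Dat.cliqueFree : P.G.CliqueFree 3 := by
  classical
  intro s hs
  rw [SimpleGraph.is3Clique_iff] at hs
  obtain ⟨u, v, w, huv, huw, hvw, -⟩ := hs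
  have h1 : P.S (u + v) := huv
  have h2 : P.S (v + w) := hvw
  have h3 : P.S (u + w) := huw
  have h4 : (u + v) + (v + w) = u + w := by
    have := P.add_self_V v
    calc (u + v) + (v + w) = (v + v) + (u + w) := by abel
      _ = u + w := by rw [this, zero_add]
  exact P.sumfree h1 h2 (by rw [h4]; exact h3)

end Pool.Agent.Helper76.CT
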