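import Pool.Agent.Helper76.CT.Graph

/-!
# The matrices of the Cayley graph: eigenvalues
-/

open Finset Pool.Agent.Helper71.CE

namespace Pool.Agent.Helper76.CT

variable {K : Type} [Field K] [Fintype K] [DecidableEq K] (P : Dat K)

theorem sum_zmod2 (F : ZMod 2 → ℝ) : ∑ e : ZMod 2, F e = F 0 + F 1 := Fin.sum_univ_two F

theorem Dat.sum_g (p q : ℝ) (F : ZMod 2 × K × K → ℝ) :
    ∑ s, P.g p q s * F s = F 0 + p * ∑ x, F (1, x, x ^ 3) +
      q * ((∑ x, F (0, x, P.ω * x ^ 3) + ∑ x, F (0, x, P.ω ^ 2 * x ^ 3)) - 2 * F 0) := by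
  have e10 : (1 : ZMod 2) ≠ 0 := by decide
  have z : ((0 : ZMod 2), (0 : K), (0 : K)) = 0 := rfl
  rw [Fintype.sum_prod_type, sum_zmod2]
  simp only [Fintype.sum_prod_type]
  have h1 : ∑ x : K, ∑ y : K, P.g p q (1, x, y) * F (1, x, y) = p * ∑ x, F (1, x, x ^ 3) := by
    rw [mul_sum]
    apply sum_congr rfl
    intro x _
    rw [Finset.sum_eq_single (x ^ 3)]
    · have : ((1 : ZMod 2), x, x ^ 3) ≠ 0 := fun h => e10 (congrArg Prod.fst h)
      unfold Dat.g
      rw [if_neg this, if_pos ⟨rfl, rfl⟩]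
    · intro y _ hy
      have : ((1 : ZMod 2), x, y) ≠ 0 := fun h => e10 (congrArg Prod.fst h)
      unfold Dat.g
      rw [if_neg this, if_neg (by simpa using hy), if_neg (by simp), zero_mul]
    · simp
  have h2 : ∀ x : K, x ≠ 0 → ∑ y : K, P.g p q (0, x, y) * F (0, x, y) =
      q * (F (0, x, P.ω * x ^ 3) + F (0, x, P.ω ^ 2 * x ^ 3)) := by
    intro x hx
    have hne : P.ω * x ^ 3 ≠ P.ω ^ 2 * x ^ 3 := by
      intro h
      have h3 : P.ω * (x ^ 3 * (P.ω - 1)) = 0 := by linear_combination -h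
      rcases mul_eq_zero.1 h3 with h4 | h4
      · exact P.om_ne h4
      · rcases mul_eq_zero.1 h4 with h5 | h5
        · exact pow_ne_zero 3 hx h5
        · have h6 : P.ω = 1 := sub_eq_zero.1 h5
          have h7 := P.psi_om1
          rw [h6] at h7
          have h8 : (1 : K) + 1 = 0 := P.add_self 1
          rw [h8, P.zero] at h7
          norm_num at h7
    have h0 : ∀ y : K, ((0 : ZMod 2), x, y) ≠ 0 := by
      intro y h
      exact hx (congrArg (fun s => s.2.1) h)
    have h3 : ∀ y, P.g p q (0, x, y) * F (0, x, y) =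
        (if y = P.ω * x ^ 3 then q * F (0, x, y) else 0) +
        (if y = P.ω ^ 2 * x ^ 3 then q * F (0, x, y) else 0) := by
      intro y
      unfold Dat.g
      rw [if_neg (h0 y), if_neg (by simp)]
      by_cases hy1 : y = P.ω * x ^ 3
      · rw [if_pos ⟨rfl, Or.inl hy1⟩, if_pos hy1, if_neg (by rw [hy1]; exact hne), add_zero]
      · by_cases hy2 : y = P.ω ^ 2 * x ^ 3
        · rw [if_pos ⟨rfl, Or.inr hy2⟩, if_neg hy1, if_pos hy2, zero_add]
        · rw [if_neg (by simp [hy1, hy2]), if_neg hy1, if_neg hy2, zero_mul, add_zero]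
    simp only [h3, sum_add_distrib, sum_ite_eq', mem_univ, if_true]
    ring
  have h3 : ∑ y : K, P.g p q (0, 0, y) * F (0, 0, y) = F 0 := by
    rw [Finset.sum_eq_single (0 : K)]
    · unfold Dat.g
      rw [if_pos z, one_mul, z]
    · intro y _ hy
      have : ((0 : ZMod 2), (0 : K), y) ≠ 0 := by
        intro h
        exact hy (congrArg (fun s => s.2.2) h)
      unfold Dat.g
      rw [if_neg this, if_neg (by simp), if_neg (by simpa using hy), zero_mul]
    · simp
  have h4 : ∑ x : K, ∑ y : K, P.g p q (0, x, y) * F (0, x, y) =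
      F 0 + q * ((∑ x, F (0, x, P.ω * x ^ 3) + ∑ x, F (0, x, P.ω ^ 2 * x ^ 3)) - 2 * F 0) := by
    rw [← Finset.add_sum_erase univ _ (mem_univ (0 : K)), h3,
      ← Finset.add_sum_erase univ (fun x => F (0, x, P.ω * x ^ 3)) (mem_univ (0 : K)),
      ← Finset.add_sum_erase univ (fun x => F (0, x, P.ω ^ 2 * x ^ 3)) (mem_univ (0 : K)),
      Finset.sum_congr rfl (fun x hx => h2 x (Finset.ne_of_mem_erase hx)), ← mul_sum,
      sum_add_distrib]
    have e1 : F (0, 0, P.ω * 0 ^ 3) = F 0 := by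
      rw [zero_pow (by norm_num), mul_zero, z]
    have e2 : F (0, 0, P.ω ^ 2 * 0 ^ 3) = F 0 := by
      rw [zero_pow (by norm_num), mul_zero, z]
    rw [e1, e2]
    ring
  rw [h1, h4]
  ring

/-- The sign character of `F_2`. -/
def sg (e : ZMod 2) : ℝ := if e = 0 then 1 else -1

theorem sg_add (a b : ZMod 2) : sg (a + b) = sg a * sg b := by
  have h : ∀ a b : ZMod 2, (a + b = 0 ↔ (a = 0 ↔ b = 0)) := by decide
  unfold sg
  by_cases ha : a = 0 <;> by_cases hb : b = 0 <;> simp [h, ha, hb]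

/-- The characters. -/
noncomputable def Dat.chi (m s : ZMod 2 × K × K) : ℝ :=
  sg (m.1 * s.1) * P.ψ (m.2.1 * s.2.1 + m.2.2 * s.2.2)

omit [Fintype K] [DecidableEq K] in
theorem Dat.chi_add (m s t : ZMod 2 × K × K) : P.chi m (s + t) = P.chi m s * P.chi m t := by
  unfold Dat.chi
  simp only [Prod.fst_add, Prod.snd_add, mul_add, sg_add]
  rw [show m.2.1 * s.2.1 + m.2.1 * t.2.1 + (m.2.2 * s.2.2 + m.2.2 * t.2.2) =
    (m.2.1 * s.2.1 + m.2.2 * s.2.2) + (m.2.1 * t.2.1 + m.2.2 * t.2.2) by ring, P.add]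
  ring

omit [Fintype K] [DecidableEq K] in
theorem Dat.chi_zero (m : ZMod 2 × K × K) : P.chi m 0 = 1 := by
  unfold Dat.chi
  simp [P.zero, sg]

theorem Dat.chi_sum (s : ZMod 2 × K × K) :
    ∑ m, P.chi m s = if s = 0 then (Fintype.card (ZMod 2 × K × K) : ℝ) else 0 := by
  split_ifs with h
  · subst h
    simp [P.chi_zero]
  · have h1 : ∑ m, P.chi m s = (∑ e : ZMod 2, sg (e * s.1)) *
        ((∑ a : K, P.ψ (a * s.2.1)) * (∑ b : K, P.ψ (b * s.2.2))) := by
      unfold Dat.chi
      rw [Fintype.sum_prod_type, Finset.sum_mul]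
      apply sum_congr rfl
      intro e _
      rw [Fintype.sum_prod_type, sum_mul_sum, mul_sum]
      apply sum_congr rfl
      intro a _
      rw [mul_sum]
      apply sum_congr rfl
      intro b _
      rw [P.add]
    rw [h1]
    obtain ⟨e, x, y⟩ := s
    by_cases hx : x = 0
    · by_cases hy : y = 0
      · have he : e ≠ 0 := by
          intro he
          apply h
          rw [hx, hy, he]
          rfl
        have he1 : e = 1 := by
          have : ∀ e : ZMod 2, e ≠ 0 → e = 1 := by decide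
          exact this e he
        have : ∑ e' : ZMod 2, sg (e' * e) = 0 := by
          rw [sum_zmod2, he1]
          simp [sg]
        rw [this, zero_mul]
      · have : ∑ b : K, P.ψ (b * y) = 0 := by
          simp only [mul_comm _ y]
          exact P.sum_mul hy
        rw [this, mul_zero, mul_zero]
    · have : ∑ a : K, P.ψ (a * x) = 0 := by
        simp only [mul_comm _ x]
        exact P.sum_mul hx
      rw [this, zero_mul, mul_zero]

/-- The eigenvalues. -/
noncomputable def Dat.ev (p q : ℝ) (m : ZMod 2 × K × K) : ℝ := ∑ s, P.g p q s * P.chi m s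

theorem Dat.ev_eq (p q : ℝ) (m : ZMod 2 × K × K) :
    P.ev p q m = 1 + p * (sg m.1 * P.W m.2.1 m.2.2) +
      q * (P.W m.2.1 (m.2.2 * P.ω) + P.W m.2.1 (m.2.2 * P.ω ^ 2) - 2) := by
  unfold Dat.ev
  rw [P.sum_g, P.chi_zero]
  unfold Dat.chi Dat.W
  simp only [mul_one, mul_zero, ← mul_sum, mul_assoc]
  have : sg 0 = 1 := by simp [sg]
  rw [this]
  ring

/-- The matrices. -/
def Dat.A (p q : ℝ) (u v : ZMod 2 × K × K) : ℝ := P.g p q (u + v)

theorem Dat.qf_A (p q : ℝ) (w : ZMod 2 × K × K → ℝ) :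
    (Fintype.card (ZMod 2 × K × K) : ℝ) * qf (P.A p q) w =
      ∑ m, P.ev p q m * (∑ u, w u * P.chi m u) ^ 2 := by
  have h1 : ∀ s, (Fintype.card (ZMod 2 × K × K) : ℝ) * P.g p q s =
      ∑ m, P.ev p q m * P.chi m s := by
    intro s
    unfold Dat.ev
    simp only [Finset.sum_mul]
    rw [sum_comm]
    have h2 : ∀ t, ∑ m, P.g p q t * P.chi m t * P.chi m s =
        if t = s then P.g p q t * (Fintype.card (ZMod 2 × K × K) : ℝ) else 0 := by
      intro t
      simp only [mul_assoc, ← P.chi_add, ← mul_sum]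
      rw [P.chi_sum]
      by_cases h : t = s
      · rw [if_pos h, h, if_pos (P.add_self_V s)]
      · have : t + s ≠ 0 := by
          intro h'
          apply h
          have h3 := P.add_self_V s
          calc t = t + (s + s) := by rw [h3, add_zero]
            _ = (t + s) + s := by abel
            _ = s := by rw [h', zero_add]
        rw [if_neg h, if_neg this, mul_zero]
    simp only [h2, sum_ite_eq', mem_univ, if_true]
    ring
  unfold qf Dat.A
  have h3 : ∀ m, P.ev p q m * (∑ u, w u * P.chi m u) ^ 2 =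
      ∑ u, ∑ v, w u * (P.ev p q m * P.chi m (u + v)) * w v := by
    intro m
    rw [_root_.sq, sum_mul_sum, mul_sum]
    apply sum_congr rfl
    intro u _
    rw [mul_sum]
    apply sum_congr rfl
    intro v _
    rw [P.chi_add]
    ring
  simp only [h3]
  rw [sum_comm (s := univ) (t := univ) (f := fun m u => ∑ v, w u * (P.ev p q m *
    P.chi m (u + v)) * w v), mul_sum]
  apply sum_congr rfl
  intro u _
  rw [sum_comm (s := univ) (t := univ) (f := fun m v => w u * (P.ev p q m *
    P.chi m (u + v)) * w v), mul_sum]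
  apply sum_congr rfl
  intro v _
  rw [← Finset.sum_mul, ← mul_sum, ← h1]
  ring


theorem Dat.card_pos : (0 : ℝ) < Fintype.card (ZMod 2 × K × K) := by
  have : 0 < Fintype.card (ZMod 2 × K × K) := Fintype.card_pos_iff.2 ⟨0⟩
  exact_mod_cast this

theorem Dat.psd_of_ev {p q : ℝ} (h : ∀ m, 0 ≤ P.ev p q m) : Psd (P.A p q) := by
  constructor
  · intro u v
    unfold Dat.A
    rw [add_comm]
  · intro w
    have h1 := P.qf_A p q w
    have h2 : 0 ≤ ∑ m, P.ev p q m * (∑ u, w u * P.chi m u) ^ 2 :=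
      sum_nonneg fun m _ => mul_nonneg (h m) (sq_nonneg _)
    have h3 := @Dat.card_pos K _ _ _
    by_contra h4
    push Not at h4
    have := mul_neg_of_pos_of_neg h3 h4
    linarith

theorem Dat.ev_of_psd {p q : ℝ} (h : Psd (P.A p q)) (m : ZMod 2 × K × K) : 0 ≤ P.ev p q m := by
  have h1 : qf (P.A p q) (fun u => P.chi m u) =
      (Fintype.card (ZMod 2 × K × K) : ℝ) * P.ev p q m := by
    unfold qf Dat.A Dat.ev
    have h2 : ∀ u, ∑ v, P.chi m u * P.g p q (u + v) * P.chi m v =
        ∑ s, P.g p q s * P.chi m s := by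
      intro u
      have h3 : ∀ v, P.chi m u * P.g p q (u + v) * P.chi m v =
          P.g p q (u + v) * P.chi m (u + v) := by
        intro v
        rw [P.chi_add]
        ring
      simp only [h3]
      exact Fintype.sum_equiv (Equiv.addLeft u) _ _ (fun v => rfl)
    simp only [h2, sum_const, card_univ, nsmul_eq_mul]
  have h2 := h.2 (fun u => P.chi m u)
  rw [h1] at h2
  exact nonneg_of_mul_nonneg_right h2 (@Dat.card_pos K _ _ _)

end Pool.Agent.Helper76.CT
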