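import Pool.Agent.Helper76.CT.Gap2

/-!
# Triangle-free graphs: exponents slightly below `2` preserve positivity

Strong pairs are pairs with `N i j > 1 - δ ^ 4`.  If no entry lies in `(1 - T, 1 - δ ^ 4]` then the
quadratic form splits, up to small terms, into the strong pairs and the rest.
-/

open Finset Pool.Agent.Helper71.CE

namespace Pool.Agent.Helper76.CT

variable {V : Type*} [Fintype V]

theorem pw_le_sqrt {n β : ℝ} (h0 : 0 ≤ n) (h1 : n ≤ 1) (hβ : 3 / 2 ≤ β) :
    pw β n ≤ n * Real.sqrt n := by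
  rcases h0.lt_or_eq with h | h
  · rw [pw_of_pos h, Real.sqrt_eq_rpow]
    calc n ^ β ≤ n ^ (3 / 2 : ℝ) := Real.rpow_le_rpow_of_exponent_ge h h1 hβ
      _ = n * n ^ (1 / 2 : ℝ) := by
          rw [show (3 / 2 : ℝ) = 1 + 1 / 2 by norm_num, Real.rpow_add h, Real.rpow_one]
  · rw [← h, pw_zero]
    simp

theorem pw_le_self {n β : ℝ} (h0 : 0 ≤ n) (h1 : n ≤ 1) (hβ : 1 ≤ β) : pw β n ≤ n := by
  rcases h0.lt_or_eq with h | h
  · rw [pw_of_pos h]
    calc n ^ β ≤ n ^ (1 : ℝ) := Real.rpow_le_rpow_of_exponent_ge h h1 hβ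
      _ = n := Real.rpow_one n
  · rw [← h, pw_zero]

/-- Cauchy–Schwarz for two differences. -/
theorem diff_minor [DecidableEq V] {N : V → V → ℝ} (hN : Psd N) (h1 : ∀ i, N i i = 1)
    (i j k l : V) (hil : N i l = 0) (hkj : N k j = 0) :
    (N i j + N k l) ^ 2 ≤ 4 * (1 - N i k) * (1 - N j l) := by
  let u : Bool → V → ℝ := fun b m =>
    if b then (if m = i then 1 else 0) - (if m = k then 1 else 0)
    else (if m = j then 1 else 0) - (if m = l then 1 else 0)
  let B : Bool → Bool → ℝ := fun a b => ∑ m, ∑ m', u a m * N m m' * u b m'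
  have hB : Psd B := by
    constructor
    · intro a b
      show ∑ m, ∑ m', u a m * N m m' * u b m' = ∑ m, ∑ m', u b m * N m m' * u a m'
      rw [sum_comm]
      apply sum_congr rfl
      intro m _
      apply sum_congr rfl
      intro m' _
      rw [hN.1 m' m]
      ring
    · intro x
      have := hN.2 (fun m => ∑ a, x a * u a m)
      have e : qf B x = qf N (fun m => ∑ a, x a * u a m) := by
        unfold qf
        simp only [B, Fintype.sum_bool]
        simp only [mul_sum, sum_mul, ← sum_add_distrib]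
        apply sum_congr rfl
        intro m _
        apply sum_congr rfl
        intro m' _
        ring
      rw [e]
      exact this
  have hm := hB.minor true false
  have e1 : B true false = N i j + N k l := by
    simp only [B, u, if_true, Bool.false_eq_true, if_false, sub_mul, mul_sub, sum_sub_distrib,
      ite_mul, mul_ite, one_mul, mul_one, zero_mul, mul_zero, sum_ite_eq', mem_univ]
    rw [hil, hkj]
    ring
  have e2 : B true true = 2 * (1 - N i k) := by
    simp only [B, u, if_true, sub_mul, mul_sub, sum_sub_distrib,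
      ite_mul, mul_ite, one_mul, mul_one, zero_mul, mul_zero, sum_ite_eq', mem_univ]
    rw [h1, h1, hN.1 k i]
    ring
  have e3 : B false false = 2 * (1 - N j l) := by
    simp only [B, u, Bool.false_eq_true, if_false, sub_mul, mul_sub, sum_sub_distrib,
      ite_mul, mul_ite, one_mul, mul_one, zero_mul, mul_zero, sum_ite_eq', mem_univ, if_true]
    rw [h1, h1, hN.1 l j]
    ring
  rw [e1, e2, e3] at hm
  linarith

/-- strong pairs -/
def Strong (N : V → V → ℝ) (τ : ℝ) (i j : V) : Prop := i ≠ j ∧ 1 - τ < N i j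

section

variable [DecidableEq V] {G : SimpleGraph V} (hG : G.CliqueFree 3) {N : V → V → ℝ} (hN : Nm G N)
  {δ : ℝ} (hδ0 : 0 < δ) (hδ : δ ≤ 1 / 2)

include hG hN in
theorem two_row {i j k : V} (hij : i ≠ j) (hik : i ≠ k) (hjk : j ≠ k) :
    N i j ^ 2 + N i k ^ 2 ≤ 1 := by
  have h1 := hN.row hG i
  have h2 : ∑ l ∈ {j, k}, N i l ^ 2 ≤ ∑ l ∈ univ.erase i, N i l ^ 2 := by
    apply sum_le_sum_of_subset_of_nonneg
    · intro l hl
      rw [mem_insert, mem_singleton] at hl
      rcases hl with rfl | rfl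
      · exact mem_erase.2 ⟨hij.symm, mem_univ _⟩
      · exact mem_erase.2 ⟨hik.symm, mem_univ _⟩
    · intro l _ _
      positivity
  rw [sum_pair hjk] at h2
  linarith

omit [Fintype V] [DecidableEq V] in
include hδ0 hδ in
theorem tau_le : δ ^ 4 ≤ 1 / 16 := by
  have : δ ^ 4 ≤ (1 / 2 : ℝ) ^ 4 := pow_le_pow_left₀ hδ0.le hδ 4
  linarith

include hG hN hδ0 hδ in
theorem strong_unique {i j k : V} (hj : Strong N (δ ^ 4) i j) (hk : Strong N (δ ^ 4) i k) :
    j = k := by
  by_contra hjk
  have h1 := two_row hG hN hj.1 hk.1 hjk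
  have h2 := tau_le hδ0 hδ
  have h3 := hj.2
  have h4 := hk.2
  nlinarith

include hG hN hδ0 hδ in
/-- the class of the weak pairs with a strong vertex -/
theorem weak_bound {i j k : V} {β : ℝ} (hβ : 3 / 2 ≤ β) (hij : i ≠ j)
    (hs : ¬ Strong N (δ ^ 4) i j) (hk : Strong N (δ ^ 4) i k) {b : ℝ}
    (hb : b = 1 ∨ ∃ l, Strong N (δ ^ 4) j l ∧ b = Real.sqrt (1 - N j l)) :
    pw β (N i j) ≤ 4 * δ * (Real.sqrt (1 - N i k) * b) := by
  have n0 := hN.1.2.1 i j
  have n1 := hN.le_one i j
  have hkj : k ≠ j := by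
    rintro rfl
    exact hs hk
  have hτ := tau_le hδ0 hδ
  set s := Real.sqrt (1 - N i k) with hsdef
  have hik1 : 0 ≤ 1 - N i k := by linarith [hN.le_one i k]
  have hs0 : 0 ≤ s := Real.sqrt_nonneg _
  have hs2 : s ^ 2 = 1 - N i k := Real.sq_sqrt hik1
  have hsδ : s ≤ δ ^ 2 := by
    apply Real.sqrt_le_iff.2
    refine ⟨by positivity, ?_⟩
    have := hk.2
    nlinarith
  rcases n0.lt_or_eq with hpos | hz
  · have a1 : G.Adj i j := by
      by_contra h
      rw [hN.1.2.2 i j hij h] at hpos
      exact lt_irrefl _ hpos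
    have a2 : G.Adj i k := by
      by_contra h
      have h1 := hk.2
      rw [hN.1.2.2 i k hk.1 h] at h1
      linarith
    have hNkj : N k j = 0 := by
      apply hN.1.2.2 k j hkj
      intro a3
      exact hG {i, k, j} (SimpleGraph.is3Clique_triple_iff.2 ⟨a2, a1, a3⟩)
    refine (pw_le_sqrt n0 n1 hβ).trans ?_
    rcases hb with hb | ⟨l, hl, hb⟩
    · rw [hb, mul_one]
      have h1 := two_row hG hN hij hk.1 (Ne.symm hkj)
      have h2 : N i j ≤ 3 / 2 * s := by
        apply le_of_sq_le_sq _ (by positivity)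
        nlinarith [hk.2]
      have h3 : Real.sqrt (N i j) ≤ 2 * δ := by
        apply Real.sqrt_le_iff.2
        refine ⟨by positivity, ?_⟩
        nlinarith
      calc N i j * Real.sqrt (N i j) ≤ 3 / 2 * s * (2 * δ) :=
            mul_le_mul h2 h3 (Real.sqrt_nonneg _) (by positivity)
        _ ≤ 4 * δ * s := by nlinarith [mul_nonneg hδ0.le hs0]
    · have hli : l ≠ i := by
        rintro rfl
        apply hs
        refine ⟨hij, ?_⟩
        have h1 := hl.2
        rw [hN.1.1.1 j l] at h1
        exact h1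
      have hNil : N i l = 0 := by
        apply hN.1.2.2 i l (Ne.symm hli)
        intro a3
        have a4 : G.Adj j l := by
          by_contra h
          have h1 := hl.2
          rw [hN.1.2.2 j l hl.1 h] at h1
          linarith
        exact hG {i, j, l} (SimpleGraph.is3Clique_triple_iff.2 ⟨a1, a3, a4⟩)
      have h1 := diff_minor hN.1.1 hN.2 i j k l hNil hNkj
      have hjl1 : 0 ≤ 1 - N j l := by linarith [hN.le_one j l]
      have hb0 : 0 ≤ b := by rw [hb]; exact Real.sqrt_nonneg _
      have hb2 : b ^ 2 = 1 - N j l := by rw [hb]; exact Real.sq_sqrt hjl1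
      have hbδ : b ≤ δ ^ 2 := by
        rw [hb]
        apply Real.sqrt_le_iff.2
        refine ⟨by positivity, ?_⟩
        have := hl.2
        nlinarith
      have hkl := hN.1.2.1 k l
      have h2 : N i j ≤ 2 * (s * b) := by
        apply le_of_sq_le_sq _ (by positivity)
        calc N i j ^ 2 ≤ (N i j + N k l) ^ 2 := by nlinarith
          _ ≤ 4 * (1 - N i k) * (1 - N j l) := h1
          _ = (2 * (s * b)) ^ 2 := by rw [← hs2, ← hb2]; ring
      have h3 : Real.sqrt (N i j) ≤ 2 * δ := by
        apply Real.sqrt_le_iff.2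
        refine ⟨by positivity, ?_⟩
        have h4 : s * b ≤ δ ^ 2 * δ ^ 2 := mul_le_mul hsδ hbδ hb0 (by positivity)
        nlinarith [sq_nonneg δ]
      calc N i j * Real.sqrt (N i j) ≤ 2 * (s * b) * (2 * δ) :=
            mul_le_mul h2 h3 (Real.sqrt_nonneg _) (by positivity)
        _ = 4 * δ * (s * b) := by ring
  · rw [← hz, pw_zero]
    have hb0 : 0 ≤ b := by
      rcases hb with hb | ⟨l, hl, hb⟩
      · rw [hb]; norm_num
      · rw [hb]; exact Real.sqrt_nonneg _
    positivity

end

end Pool.Agent.Helper76.CT
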