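import Pool.Agent.Helper76.CT.Strict

/-!
# Triangle-free graphs: exponents slightly below `2`, the main estimate
-/

open Finset Pool.Agent.Helper71.CE

namespace Pool.Agent.Helper76.CT

variable {V : Type*} [Fintype V]

open Classical in
/-- the matrix restricted to the vertices without strong partner, the identity elsewhere -/
noncomputable def restr (N : V → V → ℝ) (τ : ℝ) (i j : V) : ℝ :=
  if i = j then 1 else if (∃ k, Strong N τ i k) ∨ (∃ k, Strong N τ j k) then 0 else N i j

open Classical in
/-- the vector restricted to the vertices without strong partner -/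
noncomputable def rvec (N : V → V → ℝ) (τ : ℝ) (w : V → ℝ) (i : V) : ℝ :=
  if ∃ k, Strong N τ i k then 0 else w i

theorem restr_nm {G : SimpleGraph V} {N : V → V → ℝ} (hN : Nm G N) (τ : ℝ) :
    Nm G (restr N τ) := by
  classical
  refine ⟨⟨⟨?_, ?_⟩, ?_, ?_⟩, ?_⟩
  · intro i j
    unfold restr
    by_cases h : i = j
    · rw [if_pos h, if_pos h.symm]
    · rw [if_neg h, if_neg (Ne.symm h), hN.1.1.1 i j]
      by_cases h1 : ∃ k, Strong N τ i k <;> by_cases h2 : ∃ k, Strong N τ j k <;> simp [h1, h2]
  · intro x
    have h1 : qf (restr N τ) x = qf N (rvec N τ x) +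
        ∑ i, (if ∃ k, Strong N τ i k then x i ^ 2 else 0) := by
      unfold qf
      rw [← sum_add_distrib]
      apply sum_congr rfl
      intro i _
      have e : (if ∃ k, Strong N τ i k then x i ^ 2 else 0) =
          ∑ j, if j = i then (if ∃ k, Strong N τ i k then x i ^ 2 else 0) else 0 := by
        rw [sum_ite_eq' univ i (fun _ => if ∃ k, Strong N τ i k then x i ^ 2 else 0),
          if_pos (mem_univ i)]
      rw [e, ← sum_add_distrib]
      apply sum_congr rfl
      intro j _
      unfold restr rvec
      by_cases hij : i = j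
      · subst hij
        rw [if_pos rfl, if_pos rfl]
        by_cases h1 : ∃ k, Strong N τ i k
        · simp only [if_pos h1]
          ring
        · simp only [if_neg h1]
          rw [hN.2 i]
          ring
      · rw [if_neg hij, if_neg (Ne.symm hij)]
        by_cases h1 : ∃ k, Strong N τ i k <;> by_cases h2 : ∃ k, Strong N τ j k <;> simp [h1, h2]
    rw [h1]
    apply add_nonneg (hN.1.1.2 _)
    apply sum_nonneg
    intro i _
    split_ifs
    · positivity
    · exact le_refl 0
  · intro i j
    unfold restr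
    split_ifs
    · norm_num
    · exact le_refl 0
    · exact hN.1.2.1 i j
  · intro i j hij hG
    unfold restr
    rw [if_neg hij]
    split_ifs
    · rfl
    · exact hN.1.2.2 i j hij hG
  · intro i
    unfold restr
    rw [if_pos rfl]

theorem Strong.symm' {G : SimpleGraph V} {N : V → V → ℝ} (hN : Nm G N) {τ : ℝ} {i j : V}
    (h : Strong N τ i j) : Strong N τ j i := ⟨h.1.symm, by rw [hN.1.1.1 j i]; exact h.2⟩

open Classical in
theorem main_estimate {G : SimpleGraph V} (hG : G.CliqueFree 3) {T : ℝ} (hT : 0 < T)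
    (hT1 : T ≤ 1) : ∃ τ > 0, τ < T ∧ ∃ η > 0, η ≤ 1 / 2 ∧ ∀ β, 2 - η ≤ β → β ≤ 2 → ∀ N, Nm G N →
      (∀ i j, i ≠ j → N i j ≤ 1 - T ∨ 1 - τ < N i j) → Psd (hpow N β) := by
  obtain ⟨c, hc, η, hη, hη2, hgap⟩ := gap_beta hG hT
  obtain ⟨n, hn⟩ : ∃ n : ℝ, n = (Fintype.card V : ℝ) := ⟨_, rfl⟩
  have hn0 : 0 ≤ n := by rw [hn]; positivity
  set δ := min (1 / 2) (min T (min 1 c / (4 * (n + 1)))) with hδdef
  have hmc : 0 < min 1 c := lt_min one_pos hc
  have hδ0 : 0 < δ := by positivity
  have hδ : δ ≤ 1 / 2 := min_le_left _ _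
  have hδT : δ ≤ T := (min_le_right _ _).trans (min_le_left _ _)
  have hδc : δ ≤ min 1 c / (4 * (n + 1)) := (min_le_right _ _).trans (min_le_right _ _)
  have hδn : 4 * δ * n ≤ min 1 c := by
    rw [le_div_iff₀ (by positivity)] at hδc
    nlinarith
  have hτT : δ ^ 4 < T := by
    have h1 : δ ^ 3 ≤ (1 / 2 : ℝ) ^ 3 := pow_le_pow_left₀ hδ0.le hδ 3
    have h2 : δ ^ 4 = δ ^ 3 * δ := by ring
    rw [h2]
    nlinarith
  refine ⟨δ ^ 4, by positivity, hτT, η, hη, hη2, ?_⟩
  intro β hβ1 hβ2 N hN hdich
  refine ⟨hpow_symm hN.1.1 β, fun w => ?_⟩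
  set τ := δ ^ 4 with hτ
  have hβ : 3 / 2 ≤ β := by linarith
  -- the coefficients
  set K : V → Prop := fun i => ∃ k, Strong N τ i k with hK
  set a : V → ℝ := fun i => 1 - ∑ j, if Strong N τ i j then N i j else 0 with ha
  have aK : ∀ i k, Strong N τ i k → a i = 1 - N i k := by
    intro i k hk
    simp only [ha]
    rw [Finset.sum_eq_single k, if_pos hk]
    · intro j _ hj
      rw [if_neg]
      intro h
      exact hj (strong_unique hG hN hδ0 hδ h hk)
    · simp
  have aL : ∀ i, ¬ K i → a i = 1 := by
    intro i hi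
    simp only [ha]
    rw [Finset.sum_eq_zero, sub_zero]
    intro j _
    rw [if_neg]
    intro h
    exact hi ⟨j, h⟩
  have a0 : ∀ i, 0 ≤ a i := by
    intro i
    by_cases h : K i
    · obtain ⟨k, hk⟩ := h
      rw [aK i k hk]
      linarith [hN.le_one i k]
    · rw [aL i h]
      norm_num
  -- the termwise estimate
  have term : ∀ i j, rvec N τ w i * hpow (restr N τ) β i j * rvec N τ w j +
      (if j = i then (if K i then w i ^ 2 else 0) else 0) -
      (if Strong N τ i j then N i j * (w i ^ 2 + w j ^ 2) / 2 else 0) -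
      2 * δ * (a i * w i ^ 2 + a j * w j ^ 2) ≤ w i * hpow N β i j * w j := by
    intro i j
    have hlast : 0 ≤ 2 * δ * (a i * w i ^ 2 + a j * w j ^ 2) := by
      have := a0 i
      have := a0 j
      positivity
    by_cases hij : i = j
    · subst hij
      have hns : ¬ Strong N τ i i := fun h => h.1 rfl
      rw [if_pos rfl, if_neg hns]
      have e1 : hpow N β i i = 1 := by
        show pw β (N i i) = 1
        rw [hN.2 i, pw_of_pos one_pos, Real.one_rpow]
      have e2 : hpow (restr N τ) β i i = 1 := by
        show pw β (restr N τ i i) = 1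
        unfold restr
        rw [if_pos rfl, pw_of_pos one_pos, Real.one_rpow]
      rw [e1, e2]
      unfold rvec
      by_cases h : K i
      · rw [if_pos h, if_pos h]
        nlinarith
      · rw [if_neg h, if_neg h]
        nlinarith
    · rw [if_neg (Ne.symm hij)]
      by_cases hs : Strong N τ i j
      · rw [if_pos hs]
        have hKi : ∃ k, Strong N τ i k := ⟨j, hs⟩
        unfold rvec
        rw [if_pos hKi]
        have h1 := pw_le_self (hN.1.2.1 i j) (hN.le_one i j) (by linarith : 1 ≤ β)
        have h2 := pw_nonneg (β := β) (hN.1.2.1 i j)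
        show _ ≤ w i * pw β (N i j) * w j
        have h3 : -(pw β (N i j) * ((w i ^ 2 + w j ^ 2) / 2)) ≤ w i * pw β (N i j) * w j := by
          nlinarith [mul_nonneg h2 (sq_nonneg (w i + w j))]
        have h4 : pw β (N i j) * ((w i ^ 2 + w j ^ 2) / 2) ≤ N i j * ((w i ^ 2 + w j ^ 2) / 2) :=
          mul_le_mul_of_nonneg_right h1 (by positivity)
        linarith
      · rw [if_neg hs]
        by_cases hKi : ∃ k, Strong N τ i k
        · obtain ⟨k, hk⟩ := hKi
          have hb : Real.sqrt (a j) = 1 ∨ ∃ l, Strong N τ j l ∧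
              Real.sqrt (a j) = Real.sqrt (1 - N j l) := by
            by_cases hKj : K j
            · obtain ⟨l, hl⟩ := hKj
              exact Or.inr ⟨l, hl, by rw [aK j l hl]⟩
            · left
              rw [aL j hKj, Real.sqrt_one]
          have h1 := weak_bound hG hN hδ0 hδ hβ hij hs hk hb
          rw [← aK i k hk] at h1
          have h2 := pw_nonneg (β := β) (hN.1.2.1 i j)
          unfold rvec
          rw [if_pos ⟨k, hk⟩]
          show _ ≤ w i * pw β (N i j) * w j
          have s1 := Real.sq_sqrt (a0 i)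
          have s2 := Real.sq_sqrt (a0 j)
          set p := Real.sqrt (a i)
          set q := Real.sqrt (a j)
          have h3 : |w i * pw β (N i j) * w j| ≤ 2 * δ * (a i * w i ^ 2 + a j * w j ^ 2) := by
            rw [abs_mul, abs_mul, abs_of_nonneg h2, ← s1, ← s2]
            have h4 : |w i| * pw β (N i j) * |w j| ≤ |w i| * (4 * δ * (p * q)) * |w j| := by
              gcongr
            have h5 : |w i| * (4 * δ * (p * q)) * |w j| ≤
                2 * δ * (p ^ 2 * w i ^ 2 + q ^ 2 * w j ^ 2) := by
              rw [← sq_abs (w i), ← sq_abs (w j)]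
              nlinarith [mul_nonneg hδ0.le (sq_nonneg (p * |w i| - q * |w j|))]
            linarith
          have := (abs_le.1 h3).1
          linarith
        · by_cases hKj : ∃ k, Strong N τ j k
          · obtain ⟨k, hk⟩ := hKj
            have hs' : ¬ Strong N τ j i := fun h => hs (h.symm' hN)
            have hb : Real.sqrt (a i) = 1 ∨ ∃ l, Strong N τ i l ∧
                Real.sqrt (a i) = Real.sqrt (1 - N i l) := by
              left
              rw [aL i hKi, Real.sqrt_one]
            have h1 := weak_bound hG hN hδ0 hδ hβ (Ne.symm hij) hs' hk hb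
            rw [← aK j k hk, hN.1.1.1 j i] at h1
            have h2 := pw_nonneg (β := β) (hN.1.2.1 i j)
            unfold rvec
            rw [if_neg hKi, if_pos ⟨k, hk⟩]
            show _ ≤ w i * pw β (N i j) * w j
            have s1 := Real.sq_sqrt (a0 i)
            have s2 := Real.sq_sqrt (a0 j)
            set p := Real.sqrt (a i)
            set q := Real.sqrt (a j)
            have h3 : |w i * pw β (N i j) * w j| ≤ 2 * δ * (a i * w i ^ 2 + a j * w j ^ 2) := by
              rw [abs_mul, abs_mul, abs_of_nonneg h2, ← s1, ← s2]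
              have h4 : |w i| * pw β (N i j) * |w j| ≤ |w i| * (4 * δ * (q * p)) * |w j| := by
                gcongr
              have h5 : |w i| * (4 * δ * (q * p)) * |w j| ≤
                  2 * δ * (p ^ 2 * w i ^ 2 + q ^ 2 * w j ^ 2) := by
                rw [← sq_abs (w i), ← sq_abs (w j)]
                nlinarith [mul_nonneg hδ0.le (sq_nonneg (p * |w i| - q * |w j|))]
              linarith
            have := (abs_le.1 h3).1
            linarith
          · have e1 : hpow (restr N τ) β i j = hpow N β i j := by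
              show pw β (restr N τ i j) = pw β (N i j)
              unfold restr
              rw [if_neg hij, if_neg (by simp [hKi, hKj])]
            rw [e1]
            unfold rvec
            rw [if_neg hKi, if_neg hKj]
            linarith
  -- the sum of the termwise estimates
  have hsum := sum_le_sum fun i (_ : i ∈ (univ : Finset V)) =>
    sum_le_sum fun j (_ : j ∈ (univ : Finset V)) => term i j
  have hR := hgap β hβ1 hβ2 (restr N τ) (restr_nm hN τ) (by
    intro i j hij
    unfold restr
    rw [if_neg hij]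
    split_ifs with h
    · linarith
    · rcases hdich i j hij with h1 | h1
      · exact h1
      · exact absurd (Or.inl ⟨j, hij, h1⟩) h) (rvec N τ w)
  have e1 : ∑ i, ∑ j, (if j = i then (if K i then w i ^ 2 else 0) else 0) =
      ∑ i, if K i then w i ^ 2 else 0 := by
    apply sum_congr rfl
    intro i _
    rw [sum_ite_eq' univ i (fun _ => if K i then w i ^ 2 else 0), if_pos (mem_univ i)]
  have e2 : ∑ i, ∑ j, (if Strong N τ i j then N i j * (w i ^ 2 + w j ^ 2) / 2 else 0) =
      ∑ i, (1 - a i) * w i ^ 2 := by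
    have f1 : ∀ i j, (if Strong N τ i j then N i j * (w i ^ 2 + w j ^ 2) / 2 else 0) =
        (if Strong N τ i j then N i j else 0) * w i ^ 2 / 2 +
        (if Strong N τ i j then N i j else 0) * w j ^ 2 / 2 := by
      intro i j
      split_ifs <;> ring
    have f2 : ∑ i, ∑ j, (if Strong N τ i j then N i j else 0) * w i ^ 2 / 2 =
        ∑ i, (1 - a i) * w i ^ 2 / 2 := by
      apply sum_congr rfl
      intro i _
      simp only [ha]
      rw [← sum_div, ← sum_mul]
      ring
    have f3 : ∑ i, ∑ j, (if Strong N τ i j then N i j else 0) * w j ^ 2 / 2 =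
        ∑ i, ∑ j, (if Strong N τ i j then N i j else 0) * w i ^ 2 / 2 := by
      rw [sum_comm]
      apply sum_congr rfl
      intro i _
      apply sum_congr rfl
      intro j _
      by_cases h : Strong N τ i j
      · rw [if_pos h, if_pos (h.symm' hN), hN.1.1.1 j i]
      · rw [if_neg h, if_neg (fun h' => h (Strong.symm' hN h'))]
    simp only [f1, sum_add_distrib]
    rw [f3, f2, ← sum_add_distrib]
    apply sum_congr rfl
    intro i _
    ring
  have e3 : ∑ i, ∑ j, 2 * δ * (a i * w i ^ 2 + a j * w j ^ 2) =
      4 * δ * n * ∑ i, a i * w i ^ 2 := by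
    have g0 : ∀ b : V → ℝ, ∑ i, ∑ j, 2 * δ * (b i + b j) = 4 * δ * n * ∑ i, b i := by
      intro b
      have g1 : ∑ i, ∑ _j : V, b i = n * ∑ i, b i := by
        simp only [sum_const, card_univ, nsmul_eq_mul, mul_sum, hn]
      have g2 : ∑ _i : V, ∑ j, b j = n * ∑ i, b i := by
        simp only [sum_const, card_univ, nsmul_eq_mul, hn]
      have g3 : ∑ i, ∑ j, (b i + b j) = ∑ i, ∑ _j : V, b i + ∑ _i : V, ∑ j, b j := by
        rw [← sum_add_distrib]
        apply sum_congr rfl
        intro i _
        rw [← sum_add_distrib]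
      simp only [← mul_sum]
      rw [g3, g1, g2]
      ring
    exact g0 fun i => a i * w i ^ 2
  simp only [sum_add_distrib, sum_sub_distrib] at hsum
  rw [e1, e2, e3] at hsum
  have hqf1 : ∑ i, ∑ j, rvec N τ w i * hpow (restr N τ) β i j * rvec N τ w j =
      qf (hpow (restr N τ) β) (rvec N τ w) := rfl
  have hqf2 : ∑ i, ∑ j, w i * hpow N β i j * w j = qf (hpow N β) w := rfl
  rw [hqf1, hqf2] at hsum
  -- final comparison, vertex by vertex
  have hfin : 0 ≤ c * ∑ i, rvec N τ w i ^ 2 + (∑ i, if K i then w i ^ 2 else 0) -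
      ∑ i, (1 - a i) * w i ^ 2 - 4 * δ * n * ∑ i, a i * w i ^ 2 := by
    rw [mul_sum, mul_sum, ← sum_add_distrib, ← sum_sub_distrib, ← sum_sub_distrib]
    apply sum_nonneg
    intro i _
    have hw := sq_nonneg (w i)
    have hmin1 : min 1 c ≤ 1 := min_le_left _ _
    have hmin2 : min 1 c ≤ c := min_le_right _ _
    unfold rvec
    by_cases h : K i
    · have h' : ∃ k, Strong N τ i k := h
      rw [if_pos h, if_pos h']
      have h1 : 0 ≤ a i * w i ^ 2 := mul_nonneg (a0 i) hw
      have h2 : 4 * δ * n * (a i * w i ^ 2) ≤ 1 * (a i * w i ^ 2) :=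
        mul_le_mul_of_nonneg_right (hδn.trans hmin1) h1
      nlinarith
    · have h' : ¬ ∃ k, Strong N τ i k := h
      rw [if_neg h, if_neg h', aL i h]
      have h2 : 4 * δ * n * (w i ^ 2) ≤ c * (w i ^ 2) :=
        mul_le_mul_of_nonneg_right (hδn.trans hmin2) hw
      linarith
  linarith

end Pool.Agent.Helper76.CT
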