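import Pool.Agent.Helper71.CE.Dec

/-!
# Triangle-free graphs: all powers `β ≥ 2` preserve positivity
-/

open Finset Pool.Agent.Helper71.CE

namespace Pool.Agent.Helper76.CT

variable {V : Type*} [Fintype V]

/-- Bessel: the neighbours of a vertex of a triangle-free graph are mutually orthogonal. -/
theorem bessel [DecidableEq V] {G : SimpleGraph V} (hG : G.CliqueFree 3) {A : V → V → ℝ}
    (hA : InPG G A) (i : V) : ∑ j ∈ univ.erase i, A i j ^ 2 / A j j ≤ A i i := by
  obtain ⟨hP, h0, hz⟩ := hA
  set c : V → ℝ := fun j => if j = i then 1 else -(A i j / A j j) with hc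
  have hq := hP.2 c
  have ci : c i = 1 := by simp [hc]
  have cj : ∀ j ∈ univ.erase i, c j = -(A i j / A j j) := by
    intro j hj
    simp [hc, Finset.ne_of_mem_erase hj]
  -- a neighbour whose diagonal entry vanishes does not contribute
  have hd : ∀ j, A j j = 0 → A i j = 0 := by
    intro j hj
    have := hP.minor i j
    rw [hj, mul_zero] at this
    nlinarith [sq_nonneg (A i j)]
  have horth : ∀ j ∈ univ.erase i, ∀ k ∈ univ.erase i, j ≠ k →
      A i j / A j j * A j k * (A i k / A k k) = 0 := by
    intro j hj k hk hjk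
    by_cases e1 : A i j = 0
    · rw [e1]
      simp
    by_cases e2 : A i k = 0
    · rw [e2]
      simp
    have a1 : G.Adj i j := by
      by_contra h
      exact e1 (hz i j (Finset.ne_of_mem_erase hj).symm h)
    have a2 : G.Adj i k := by
      by_contra h
      exact e2 (hz i k (Finset.ne_of_mem_erase hk).symm h)
    have a3 : ¬ G.Adj j k := by
      intro a3
      exact hG {i, j, k} (SimpleGraph.is3Clique_triple_iff.2 ⟨a1, a2, a3⟩)
    rw [hz j k hjk a3]
    simp
  have hrow : ∀ j ∈ univ.erase i, ∑ k, c j * A j k * c k = -(A i j ^ 2 / A j j) +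
      A i j ^ 2 / A j j := by
    intro j hj
    rw [← Finset.add_sum_erase univ _ (mem_univ i), ci, cj j hj, Finset.sum_eq_single j]
    · rw [cj j hj, hP.1 j i]
      by_cases e : A j j = 0
      · rw [hd j e]
        simp
      · field_simp
    · intro k hk hkj
      rw [cj k hk]
      have := horth j hj k hk (Ne.symm hkj)
      linear_combination this
    · intro h
      exact absurd hj h
  have hrow2 : ∑ k, c i * A i k * c k = A i i - ∑ j ∈ univ.erase i, A i j ^ 2 / A j j := by
    rw [← Finset.add_sum_erase univ _ (mem_univ i), ci]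
    have : ∀ k ∈ univ.erase i, (1 : ℝ) * A i k * c k = -(A i k ^ 2 / A k k) := by
      intro k hk
      rw [cj k hk]
      ring
    rw [Finset.sum_congr rfl this, Finset.sum_neg_distrib]
    ring
  unfold qf at hq
  rw [← Finset.add_sum_erase univ _ (mem_univ i), hrow2, Finset.sum_congr rfl hrow] at hq
  simp only [neg_add_cancel, sum_const_zero, add_zero] at hq
  linarith

/-- A symmetric matrix which is a sum of positive semidefinite matrices
supported on pairs. -/
theorem psd_of_split [DecidableEq V] {p u : V → V → ℝ} (hs : ∀ i j, p i j = p j i)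
    (hu : ∀ i j, 0 ≤ u i j)
    (huu : ∀ i j, i ≠ j → p i j ^ 2 ≤ u i j * u j i)
    (hsum : ∀ i, ∑ j ∈ univ.erase i, u i j ≤ p i i) : Psd p := by
  refine ⟨hs, fun x => ?_⟩
  have h1 : ∀ i, ∑ j, x i * p i j * x j =
      x i ^ 2 * p i i + ∑ j ∈ univ.erase i, x i * p i j * x j := by
    intro i
    rw [← Finset.add_sum_erase univ _ (mem_univ i)]
    ring
  have h2 : ∀ i, ∀ j ∈ univ.erase i,
      -(u i j * x i ^ 2 + u j i * x j ^ 2) / 2 ≤ x i * p i j * x j := by
    intro i j hj
    have h3 := huu i j (Finset.ne_of_mem_erase hj).symm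
    have h4 : |2 * (x i * p i j * x j)| ≤ u i j * x i ^ 2 + u j i * x j ^ 2 := by
      have n1 : 0 ≤ u i j * x i ^ 2 := mul_nonneg (hu i j) (sq_nonneg _)
      have n2 : 0 ≤ u j i * x j ^ 2 := mul_nonneg (hu j i) (sq_nonneg _)
      apply abs_le_of_sq_le_sq _ (by linarith)
      have h5 : (x i * x j) ^ 2 * p i j ^ 2 ≤ (x i * x j) ^ 2 * (u i j * u j i) :=
        mul_le_mul_of_nonneg_left h3 (sq_nonneg _)
      nlinarith [sq_nonneg (u i j * x i ^ 2 - u j i * x j ^ 2)]
    have := (abs_le.1 h4).1
    linarith
  unfold qf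
  have h5 : ∑ i, ∑ j ∈ univ.erase i, (u i j * x i ^ 2 + u j i * x j ^ 2) / 2 =
      ∑ i, x i ^ 2 * ∑ j ∈ univ.erase i, u i j := by
    have e1 : ∀ f : V → V → ℝ, ∑ i, ∑ j ∈ univ.erase i, f i j =
        ∑ i, ∑ j, if i = j then 0 else f i j := by
      intro f
      apply sum_congr rfl
      intro i _
      rw [← Finset.add_sum_erase univ (fun j => if i = j then 0 else f i j) (mem_univ i),
        if_pos rfl, zero_add]
      apply sum_congr rfl
      intro j hj
      rw [if_neg (Finset.ne_of_mem_erase hj).symm]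
    have e2 : ∑ i, ∑ j ∈ univ.erase i, u j i * x j ^ 2 =
        ∑ i, ∑ j ∈ univ.erase i, u i j * x i ^ 2 := by
      rw [e1, e1, sum_comm]
      apply sum_congr rfl
      intro i _
      apply sum_congr rfl
      intro j _
      by_cases h : i = j
      · rw [if_pos h.symm, if_pos h]
      · rw [if_neg (Ne.symm h), if_neg h]
    simp only [← sum_div, sum_add_distrib]
    rw [e2]
    simp only [mul_sum]
    have e3 : ∑ i, ∑ j ∈ univ.erase i, u i j * x i ^ 2 =
        ∑ i, ∑ j ∈ univ.erase i, x i ^ 2 * u i j := by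
      apply sum_congr rfl
      intro i _
      apply sum_congr rfl
      intro j _
      ring
    rw [e3]
    ring
  calc (0 : ℝ) ≤ ∑ i, x i ^ 2 * p i i - ∑ i, x i ^ 2 * ∑ j ∈ univ.erase i, u i j := by
        rw [← sum_sub_distrib]
        apply sum_nonneg
        intro i _
        rw [← mul_sub]
        exact mul_nonneg (sq_nonneg _) (sub_nonneg.2 (hsum i))
    _ = ∑ i, (x i ^ 2 * p i i +
        ∑ j ∈ univ.erase i, -(u i j * x i ^ 2 + u j i * x j ^ 2) / 2) := by
        rw [← h5, ← sum_sub_distrib]
        apply sum_congr rfl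
        intro i _
        rw [sub_eq_add_neg, ← sum_neg_distrib]
        congr 1
        apply sum_congr rfl
        intro j _
        ring
    _ ≤ ∑ i, ∑ j, x i * p i j * x j := by
        apply sum_le_sum
        intro i _
        rw [h1]
        gcongr with j hj
        exact h2 i j hj

theorem upper {G : SimpleGraph V} (hG : G.CliqueFree 3) {A : V → V → ℝ} (hA : InPG G A) {β : ℝ}
    (hβ : 2 ≤ β) : Psd (hpow A β) := by
  classical
  have hP := hA.1
  have h0 := hA.2.1
  apply psd_of_split (u := fun i j => pw (β - 1) (A i i) * (A i j ^ 2 / A j j))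
  · exact hpow_symm hP β
  · intro i j
    exact mul_nonneg (pw_nonneg (h0 i i)) (div_nonneg (sq_nonneg _) (h0 j j))
  · intro i j hij
    show pw β (A i j) ^ 2 ≤ _
    by_cases e : A i j = 0
    · rw [e, pw_zero]
      simp
    · have hpos : 0 < A i j := lt_of_le_of_ne (h0 i j) (Ne.symm e)
      have hm := hP.minor i j
      have hm2 : 0 < A i i * A j j := lt_of_lt_of_le (by positivity) hm
      have hi : 0 < A i i := by
        rcases (h0 i i).lt_or_eq with h | h
        · exact h
        · rw [← h] at hm2
          simp at hm2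
      have hj : 0 < A j j := by
        rcases (h0 j j).lt_or_eq with h | h
        · exact h
        · rw [← h] at hm2
          simp at hm2
      rw [pw_of_pos hpos, pw_of_pos hi, pw_of_pos hj, hP.1 j i]
      have e1 : (A i j ^ β) ^ 2 = A i j ^ 4 * (A i j ^ 2) ^ (β - 2) := by
        rw [← Real.rpow_natCast, ← Real.rpow_natCast (A i j) 4, ← Real.rpow_natCast (A i j) 2,
          ← Real.rpow_mul hpos.le, ← Real.rpow_mul hpos.le, ← Real.rpow_add hpos]
        congr 1
        push_cast
        ring
      have e2 : A i i ^ (β - 1) * (A i j ^ 2 / A j j) * (A j j ^ (β - 1) * (A i j ^ 2 / A i i)) =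
          A i j ^ 4 * (A i i * A j j) ^ (β - 2) := by
        rw [Real.mul_rpow hi.le hj.le, show β - 1 = (β - 2) + 1 by ring, Real.rpow_add hi,
          Real.rpow_add hj, Real.rpow_one, Real.rpow_one]
        field_simp
      rw [e1, e2]
      apply mul_le_mul_of_nonneg_left _ (by positivity)
      exact Real.rpow_le_rpow (by positivity) hm (by linarith)
  · intro i
    show _ ≤ pw β (A i i)
    rw [← mul_sum, pw_add_one (β := β) (h0 i i)]
    exact mul_le_mul_of_nonneg_left (bessel hG hA i) (pw_nonneg (h0 i i))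

end Pool.Agent.Helper76.CT
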