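import Mathlib

/-!
# Cubic Walsh sums over a finite field of characteristic two

`K` is a finite field of characteristic `2` containing a primitive cube root of unity `ω`, and `ψ` is
an additive character with values `± 1` such that `ψ (x ^ 2) = ψ x` and `ψ ω = - 1` (the absolute
trace of `ω` is `1`: the degree of `K` over `F_4` is odd).
-/

open Finset

namespace Pool.Agent.Helper76.CT

/-- The data of the construction. -/
structure Dat (K : Type) [Field K] where
  ψ : K → ℝ
  ω : K
  two : (2 : K) = 0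
  val : ∀ x, ψ x = 1 ∨ ψ x = -1
  add : ∀ x y, ψ (x + y) = ψ x * ψ y
  sq : ∀ x, ψ (x ^ 2) = ψ x
  om : ω ^ 2 + ω + 1 = 0
  psi_om : ψ ω = -1

variable {K : Type} [Field K] [Fintype K] [DecidableEq K] (P : Dat K)

omit [Fintype K] [DecidableEq K] in
theorem Dat.zero : P.ψ 0 = 1 := by
  have h := P.add 0 0
  rw [add_zero] at h
  rcases P.val 0 with h1 | h1
  · exact h1
  · rw [h1] at h
    norm_num at h

omit [Fintype K] [DecidableEq K] in
include P in
theorem Dat.add_self (x : K) : x + x = 0 := by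
  have h := P.two
  linear_combination x * h

omit [Fintype K] [DecidableEq K] in
theorem Dat.mul_self (x : K) : P.ψ x * P.ψ x = 1 := by
  rw [← P.add, P.add_self, P.zero]

omit [Fintype K] [DecidableEq K] in
theorem Dat.abs_le (x : K) : |P.ψ x| ≤ 1 := by
  rcases P.val x with h | h <;> rw [h] <;> simp

omit [DecidableEq K] in
theorem Dat.sum_mul {e : K} (he : e ≠ 0) : ∑ x, P.ψ (e * x) = 0 := by
  have h1 : ∑ x, P.ψ (e * (x + P.ω / e)) = ∑ x, P.ψ (e * x) :=
    Fintype.sum_equiv (Equiv.addRight (P.ω / e)) _ _ (fun x => rfl)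
  have h2 : ∀ x, P.ψ (e * (x + P.ω / e)) = - P.ψ (e * x) := by
    intro x
    rw [mul_add, mul_div_cancel₀ _ he, P.add, P.psi_om]
    ring
  simp only [h2, sum_neg_distrib] at h1
  linarith

omit [DecidableEq K] in
theorem Dat.sum_mul_sq {e : K} (he : e ≠ 0) : ∑ x, P.ψ (e * x ^ 2) = 0 := by
  have hinj : Function.Injective (fun x : K => x ^ 2) := by
    intro x y h
    have h' : x ^ 2 = y ^ 2 := h
    have h3 : (x + y) ^ 2 = 0 := by
      linear_combination h' + (x * y + y ^ 2) * P.two
    have h4 : x + y = 0 := by simpa using h3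
    linear_combination h4 - y * P.two
  have hbij : Function.Bijective (fun x : K => x ^ 2) :=
    ⟨hinj, Finite.surjective_of_injective hinj⟩
  have h := Function.Bijective.sum_comp hbij (fun y => P.ψ (e * y))
  rw [P.sum_mul he] at h
  exact h

/-- The Walsh sums. -/
noncomputable def Dat.W (a b : K) : ℝ := ∑ x, P.ψ (a * x + b * x ^ 3)

omit [DecidableEq K] in
theorem Dat.W_zero : P.W 0 0 = Fintype.card K := by
  unfold Dat.W
  simp [P.zero]

omit [DecidableEq K] in
theorem Dat.W_lin {a : K} (ha : a ≠ 0) : P.W a 0 = 0 := by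
  unfold Dat.W
  simp only [zero_mul, add_zero]
  exact P.sum_mul ha

theorem Dat.W_sq {a b : K} (hb : b ≠ 0) : P.W a b ^ 2 ≤ 4 * Fintype.card K := by
  have h1 : P.W a b ^ 2 = ∑ d, P.ψ (a * d + b * d ^ 3) *
      ∑ x, P.ψ ((b * d + b ^ 2 * d ^ 4) * x ^ 2) := by
    unfold Dat.W
    rw [_root_.sq, sum_mul_sum]
    have h2 : ∀ x : K, ∑ y, P.ψ (a * x + b * x ^ 3) * P.ψ (a * y + b * y ^ 3) =
        ∑ d, P.ψ (a * x + b * x ^ 3) * P.ψ (a * (x + d) + b * (x + d) ^ 3) := by
      intro x
      exact (Fintype.sum_equiv (Equiv.addLeft x) _ _ (fun d => rfl)).symm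
    simp only [h2]
    rw [sum_comm]
    apply sum_congr rfl
    intro d _
    rw [mul_sum]
    apply sum_congr rfl
    intro x _
    have h3 : (a * x + b * x ^ 3) + (a * (x + d) + b * (x + d) ^ 3) =
        (a * d + b * d ^ 3) + (b * d * x ^ 2 + b * d ^ 2 * x) := by
      linear_combination (a * x + b * x ^ 3 + b * x ^ 2 * d + b * x * d ^ 2) * P.two
    rw [← P.add, h3, P.add, P.add (b * d * x ^ 2), ← P.sq (b * d ^ 2 * x), ← P.add]
    congr 2
    ring
  have h4 : ∀ d : K, ∑ x, P.ψ ((b * d + b ^ 2 * d ^ 4) * x ^ 2) =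
      if b * d + b ^ 2 * d ^ 4 = 0 then (Fintype.card K : ℝ) else 0 := by
    intro d
    split_ifs with h
    · simp [h, P.zero]
    · exact P.sum_mul_sq h
  rw [h1]
  simp only [h4, mul_ite, mul_zero]
  rw [← sum_filter]
  have h5 : (univ.filter fun d : K => b * d + b ^ 2 * d ^ 4 = 0) ⊆
      insert 0 (Polynomial.nthRoots 3 b⁻¹).toFinset := by
    intro d hd
    have hd' : b * d + b ^ 2 * d ^ 4 = 0 := by simpa using hd
    rw [mem_insert]
    by_cases hd0 : d = 0
    · exact Or.inl hd0
    · right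
      rw [Multiset.mem_toFinset, Polynomial.mem_nthRoots (by norm_num)]
      have h6 : b * d * (1 + b * d ^ 3) = 0 := by linear_combination hd'
      have h7 : 1 + b * d ^ 3 = 0 := by
        rcases mul_eq_zero.1 h6 with h | h
        · exact absurd h (mul_ne_zero hb hd0)
        · exact h
      field_simp
      linear_combination h7 - P.two
  have h8 : ((univ.filter fun d : K => b * d + b ^ 2 * d ^ 4 = 0).card : ℝ) ≤ 4 := by
    have h9 := card_le_card h5
    have h10 := card_insert_le (0 : K) (Polynomial.nthRoots 3 b⁻¹).toFinset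
    have h11 := Multiset.toFinset_card_le (Polynomial.nthRoots 3 b⁻¹)
    have h12 := Polynomial.card_nthRoots 3 b⁻¹
    have : (univ.filter fun d : K => b * d + b ^ 2 * d ^ 4 = 0).card ≤ 4 := by omega
    exact_mod_cast this
  calc ∑ d ∈ univ.filter (fun d : K => b * d + b ^ 2 * d ^ 4 = 0),
      P.ψ (a * d + b * d ^ 3) * (Fintype.card K : ℝ)
      ≤ ∑ d ∈ univ.filter (fun d : K => b * d + b ^ 2 * d ^ 4 = 0), (Fintype.card K : ℝ) := by
        apply sum_le_sum
        intro d _
        have := le_of_abs_le (P.abs_le (a * d + b * d ^ 3))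
        have h0 : (0 : ℝ) ≤ Fintype.card K := by positivity
        nlinarith
    _ = ((univ.filter fun d : K => b * d + b ^ 2 * d ^ 4 = 0).card : ℝ) * Fintype.card K := by
        rw [sum_const, nsmul_eq_mul]
    _ ≤ 4 * Fintype.card K := by
        apply mul_le_mul_of_nonneg_right h8
        positivity

theorem Dat.W_abs {a b : K} (h : ¬ (a = 0 ∧ b = 0)) {s : ℝ} (hs : 0 ≤ s)
    (hq : s ^ 2 = Fintype.card K) : |P.W a b| ≤ 2 * s := by
  by_cases hb : b = 0
  · subst hb
    have ha : a ≠ 0 := fun h' => h ⟨h', rfl⟩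
    rw [P.W_lin ha]
    simpa using hs
  · have h1 := P.W_sq (a := a) hb
    rw [← hq] at h1
    apply abs_le_of_sq_le_sq _ (by linarith)
    nlinarith

end Pool.Agent.Helper76.CT
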